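import Pool.Agent.Q169.ZD.Stm2

/-!
# Job RES of project ZD: free acyclic complexes with finitely many orbits as resolutions
-/

set_option autoImplicit false

open scoped Matrix

namespace Pool.Agent.U838.ZD

open Pool.Agent.H919R4.ZS (FinRes toRed augm)
open Pool.Agent.TH38.CX (AcyclicGComplex)
open Pool.Agent.Q169.ZD

noncomputable section

variable {N : Type} [Group N]

section cells

variable {E E' : Type} [MulAction N E] [MulAction N E'] {n n' : ℕ}

/-- the coordinates of a free `N`-set with finitely many orbits -/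
theorem exists_coord (hfree : ∀ (g : N) (e : E), g • e = e → g = 1) (rep : Fin n → E)
    (hrep : ∀ e : E, ∃! a, e ∈ MulAction.orbit N (rep a)) :
    ∃ ψ : E ≃ N × Fin n, ∀ (g : N) (e : E), ψ (g • e) = (g * (ψ e).1, (ψ e).2) := by
  have hb : Function.Bijective (fun p : N × Fin n => p.1 • rep p.2) := by
    constructor
    · rintro ⟨g, a⟩ ⟨g', a'⟩ h
      change g • rep a = g' • rep a' at h
      have ha : a = a' := (hrep (g • rep a)).unique ⟨g, rfl⟩ ⟨g', h.symm⟩
      subst ha
      have h1 : (g'⁻¹ * g) • rep a = rep a := by rw [mul_smul, h, inv_smul_smul]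
      have h2 := hfree _ _ h1
      rw [inv_mul_eq_one.1 h2]
    · intro e
      obtain ⟨a, ⟨g, hg⟩, -⟩ := hrep e
      exact ⟨(g, a), hg⟩
  refine ⟨(Equiv.ofBijective _ hb).symm, fun g e => ?_⟩
  rw [Equiv.symm_apply_eq]
  change g • e = (g * _) • rep _
  rw [mul_smul]
  congr 1
  exact ((Equiv.ofBijective _ hb).apply_symm_apply e).symm

omit [MulAction N E] in
theorem emb_inj (ψ : E ≃ N × Fin n) (k : Fin n) :
    Function.Injective (fun g => ψ.symm (g, k)) := by
  intro a b hab
  have := ψ.symm.injective hab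
  simpa using this

/-- the cells of the type `k` -/
def emb (ψ : E ≃ N × Fin n) (k : Fin n) : N ↪ E := ⟨fun g => ψ.symm (g, k), emb_inj ψ k⟩

open scoped Classical in
/-- the row vector of a chain -/
def Φ (ψ : E ≃ N × Fin n) : (E →₀ ℤ) ≃+ (Fin n → MonoidAlgebra ℤ N) where
  toFun x k := .ofCoeff (x.comapDomain (fun g => ψ.symm (g, k)) (emb_inj ψ k).injOn)
  invFun y := Finsupp.onFinset
    (Finset.univ.biUnion fun k => (y k).coeff.support.map (emb ψ k))
    (fun e => (y (ψ e).2).coeff (ψ e).1) (by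
      intro e he
      rw [Finset.mem_biUnion]
      refine ⟨(ψ e).2, Finset.mem_univ _, ?_⟩
      rw [Finset.mem_map]
      refine ⟨(ψ e).1, Finsupp.mem_support_iff.2 he, ?_⟩
      change ψ.symm ((ψ e).1, (ψ e).2) = e
      simp)
  left_inv x := by
    ext e
    change x (ψ.symm ((ψ e).1, (ψ e).2)) = x e
    simp
  right_inv y := by
    funext k
    apply MonoidAlgebra.coeff_injective
    ext g
    change (y (ψ (ψ.symm (g, k))).2).coeff (ψ (ψ.symm (g, k))).1 = (y k).coeff g
    rw [Equiv.apply_symm_apply]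
  map_add' x y := by
    funext k
    apply MonoidAlgebra.coeff_injective
    ext g
    rfl

omit [MulAction N E] in
theorem Φ_coeff (ψ : E ≃ N × Fin n) (x : E →₀ ℤ) (k : Fin n) (g : N) :
    (Φ ψ x k).coeff g = x (ψ.symm (g, k)) := rfl

omit [MulAction N E] in
theorem Φ_single (ψ : E ≃ N × Fin n) (e : E) (r : ℤ) :
    Φ ψ (Finsupp.single e r) = Pi.single (ψ e).2 (MonoidAlgebra.single (ψ e).1 r) := by
  classical
  funext k
  apply MonoidAlgebra.coeff_injective
  ext g
  rw [Φ_coeff]
  by_cases hk : (ψ e).2 = k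
  · subst hk
    rw [Pi.single_eq_same, MonoidAlgebra.coeff_single, Finsupp.single_apply, Finsupp.single_apply]
    have : e = ψ.symm (g, (ψ e).2) ↔ (ψ e).1 = g := by
      rw [Equiv.eq_symm_apply]
      constructor
      · intro h; rw [h]
      · intro h; rw [← h]
    simp only [this]
  · rw [Pi.single_eq_of_ne (Ne.symm hk)]
    rw [Finsupp.single_apply, if_neg]
    · rfl
    · intro h
      apply hk
      rw [h, Equiv.apply_symm_apply]

/-- the matrix of an equivariant boundary map -/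
def Mx (ψ : E ≃ N × Fin n) (ψ' : E' ≃ N × Fin n') (bd : (E' →₀ ℤ) →+ (E →₀ ℤ)) :
    Matrix (Fin n') (Fin n) (MonoidAlgebra ℤ N) :=
  fun j => Φ ψ (bd (Finsupp.single (ψ'.symm (1, j)) 1))

variable (ψ : E ≃ N × Fin n) (ψ' : E' ≃ N × Fin n')
  (hψ : ∀ (g : N) (e : E), ψ (g • e) = (g * (ψ e).1, (ψ e).2))
  (hψ' : ∀ (g : N) (e : E'), ψ' (g • e) = (g * (ψ' e).1, (ψ' e).2))
  (bd : (E' →₀ ℤ) →+ (E →₀ ℤ))
  (hbd : ∀ (g : N) (x : E' →₀ ℤ),
    bd (x.mapDomain (fun e => g • e)) = (bd x).mapDomain (fun e => g • e))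

include hψ in
theorem Φ_smul (g : N) (x : E →₀ ℤ) :
    Φ ψ (x.mapDomain (fun e => g • e)) = fun k => MonoidAlgebra.single g 1 * Φ ψ x k := by
  induction x using Finsupp.induction_linear with
  | zero =>
    funext k
    simp
  | add x y hx hy =>
    rw [Finsupp.mapDomain_add, map_add, hx, hy, map_add]
    funext k
    simp [mul_add]
  | single e r =>
    rw [Finsupp.mapDomain_single, Φ_single, Φ_single, hψ]
    funext k
    by_cases hk : k = (ψ e).2
    · subst hk
      simp only
      rw [Pi.single_eq_same, Pi.single_eq_same, MonoidAlgebra.single_mul_single, one_mul]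
    · simp only
      rw [Pi.single_eq_of_ne hk, Pi.single_eq_of_ne hk, mul_zero]

include hψ hψ' hbd in
theorem Φ_bd (x : E' →₀ ℤ) : Φ ψ (bd x) = Φ ψ' x ᵥ* Mx ψ ψ' bd := by
  induction x using Finsupp.induction_linear with
  | zero => simp
  | add x y hx hy => rw [map_add, map_add, hx, hy, map_add, Matrix.add_vecMul]
  | single e r =>
    have h1 : Finsupp.single e r = r • (Finsupp.single (ψ'.symm (1, (ψ' e).2)) (1 : ℤ)).mapDomain
        (fun f => (ψ' e).1 • f) := by
      rw [Finsupp.mapDomain_single, Finsupp.smul_single, smul_eq_mul, mul_one]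
      congr 1
      apply ψ'.injective
      rw [hψ', Equiv.apply_symm_apply, mul_one]
    rw [Φ_single]
    conv_lhs => rw [h1, map_zsmul, hbd, map_zsmul, Φ_smul ψ hψ]
    funext k
    rw [Matrix.single_vecMul, Pi.smul_apply]
    simp only [Pi.smul_apply, Mx, Matrix.row]
    have h2 : MonoidAlgebra.single (ψ' e).1 r = r • MonoidAlgebra.single (ψ' e).1 (1 : ℤ) := by
      apply MonoidAlgebra.coeff_injective
      rw [MonoidAlgebra.coeff_smul, MonoidAlgebra.coeff_single, MonoidAlgebra.coeff_single,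
        Finsupp.smul_single, smul_eq_mul, mul_one]
    rw [h2, smul_eq_mul, smul_mul_assoc]

end cells

theorem augm_sum {E : Type} {n : ℕ} (ψ : E ≃ N × Fin n) (x : E →₀ ℤ) :
    ∑ j, augm N (Φ ψ x j) * 1 = x.sum fun _ r => r := by
  induction x using Finsupp.induction_linear with
  | zero => simp
  | add x y hx hy =>
    rw [map_add, Finsupp.sum_add_index' (fun _ => rfl) (fun _ _ _ => rfl), ← hx, ← hy,
      ← Finset.sum_add_distrib]
    refine Finset.sum_congr rfl fun j _ => ?_
    rw [Pi.add_apply, map_add, add_mul]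
  | single e r =>
    rw [Finsupp.sum_single_index rfl, Φ_single, Finset.sum_eq_single (ψ e).2]
    · rw [Pi.single_eq_same, mul_one]
      change MonoidAlgebra.lift ℤ ℤ N 1 (MonoidAlgebra.single _ _) = _
      rw [MonoidAlgebra.lift_single]
      simp
    · intro j _ hj
      rw [Pi.single_eq_of_ne hj, map_zero, zero_mul]
    · intro h
      exact absurd (Finset.mem_univ _) h

/-- **Job RES.** -/
theorem res : S_RES := by
  intro N _ U hfree c rep hrep
  choose ψ hψ using fun i => exists_coord (hfree i) (rep i) (hrep i)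
  have hB : ∀ i x, Φ (ψ i) (U.bd i x) = Φ (ψ (i + 1)) x ᵥ* Mx (ψ i) (ψ (i + 1)) (U.bd i) :=
    fun i x => Φ_bd (ψ i) (ψ (i + 1)) (hψ i) (hψ (i + 1)) (U.bd i) (fun g x => U.bd_smul i g x) x
  refine ⟨{ len := U.len, n := c, d := fun i => Mx (ψ i) (ψ (i + 1)) (U.bd i), aug := fun _ => 1,
            n_eq_zero := ?_, surj := ?_, exact_zero := ?_, exact_succ := ?_ }, ψ, hψ, ?_⟩
  · intro i hi
    by_contra h0
    exact (U.isEmpty i hi).false (rep i ⟨0, Nat.pos_of_ne_zero h0⟩)
  · obtain ⟨e⟩ := U.nonempty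
    exact ⟨Φ (ψ 0) (Finsupp.single e 1), by rw [augm_sum, Finsupp.sum_single_index rfl]⟩
  · intro x
    obtain ⟨x, rfl⟩ := (Φ (ψ 0)).surjective x
    rw [augm_sum, U.exact_zero]
    constructor
    · rintro ⟨y, hy⟩
      exact ⟨Φ (ψ 1) y, by rw [← hB, hy]⟩
    · rintro ⟨y, hy⟩
      obtain ⟨y, rfl⟩ := (Φ (ψ 1)).surjective y
      exact ⟨y, (Φ (ψ 0)).injective (by rw [hB, hy])⟩
  · intro i x
    obtain ⟨x, rfl⟩ := (Φ (ψ (i + 1))).surjective x
    rw [← hB]
    constructor
    · intro h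
      have h1 : U.bd i x = 0 := (Φ (ψ i)).injective (by rw [h, map_zero])
      obtain ⟨y, hy⟩ := (U.exact_succ i x).1 h1
      exact ⟨Φ (ψ (i + 2)) y, by rw [← hB, hy]⟩
    · rintro ⟨y, hy⟩
      obtain ⟨y, rfl⟩ := (Φ (ψ (i + 2))).surjective y
      have h1 : U.bd (i + 1) y = x := (Φ (ψ (i + 1))).injective (by rw [hB, hy])
      rw [(U.exact_succ i x).2 ⟨y, h1⟩, map_zero]
  · intro i e f
    change _ = (Φ (ψ i) (U.bd i (Finsupp.single ((ψ (i + 1)).symm (1, _)) 1)) _).coeff _
    rw [Φ_coeff]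
    have h1 : Finsupp.single e (1 : ℤ) = (Finsupp.single ((ψ (i + 1)).symm
        (1, (ψ (i + 1) e).2)) (1 : ℤ)).mapDomain (fun f => (ψ (i + 1) e).1 • f) := by
      rw [Finsupp.mapDomain_single]
      congr 1
      apply (ψ (i + 1)).injective
      rw [hψ, Equiv.apply_symm_apply, mul_one]
    conv_lhs => rw [h1, U.bd_smul]
    have h2 : f = (ψ (i + 1) e).1 • (ψ i).symm ((ψ (i + 1) e).1⁻¹ * (ψ i f).1, (ψ i f).2) := by
      apply (ψ i).injective
      rw [hψ, Equiv.apply_symm_apply, mul_inv_cancel_left]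
    conv_lhs => rw [h2]
    exact Finsupp.mapDomain_apply (MulAction.injective _) _ _

end

end Pool.Agent.U838.ZD
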