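import Pool.Agent.U838.ZD.ExtJob

/-!
# The job CELL
-/

set_option autoImplicit false

namespace Pool.Agent.U838.ZD

open Pool.Agent.Q169.ZD
open Pool.Agent.TH38.CX (AcyclicGComplex)

noncomputable section

section

variable {B : Type} {M : CoxeterMatrix B} {W : Type} [Group W] {cs : CoxeterSystem M W}
  {H : Type} [Group H] [MulAction H B] {φ : H →* MulAut W} {Y : Mirrored H B}

theorem cell_eq_iff (i : ℕ) (e e' : Y.E i) (w w' : W) :
    cell cs Y i e w = cell cs Y i e' w' ↔ e = e' ∧ w⁻¹ * w' ∈ par cs (Y.mir i e) := by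
  constructor
  · intro h
    have h1 : e = e' := congrArg Sigma.fst h
    subst h1
    refine ⟨rfl, ?_⟩
    have h2 : (QuotientGroup.mk w : W ⧸ par cs (Y.mir i e)) = QuotientGroup.mk w' := by
      have h3 := (Sigma.mk.inj_iff.1 h).2
      exact eq_of_heq h3
    exact QuotientGroup.eq.1 h2
  · rintro ⟨rfl, h⟩
    have h2 : (QuotientGroup.mk w : W ⧸ par cs (Y.mir i e)) = QuotientGroup.mk w' :=
      QuotientGroup.eq.2 h
    exact congrArg (fun q => (⟨e, q⟩ : Cell cs Y i)) h2

theorem cell_surj (i : ℕ) (x : Cell cs Y i) : ∃ e w, x = cell cs Y i e w := by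
  obtain ⟨e, q⟩ := x
  obtain ⟨w, rfl⟩ := QuotientGroup.mk_surjective q
  exact ⟨e, w, rfl⟩

theorem out_mem (i : ℕ) (e : Y.E i) (w : W) :
    (cell cs Y i e w).2.out⁻¹ * w ∈ par cs (Y.mir i e) := by
  have h : (QuotientGroup.mk ((cell cs Y i e w).2.out) : W ⧸ par cs (Y.mir i e)) =
      QuotientGroup.mk w := Quotient.out_eq (QuotientGroup.mk w)
  exact QuotientGroup.eq.1 h

theorem par_phi (hφ : ∀ h b, φ h (cs.simple b) = cs.simple (h • b)) (h : H) (i : ℕ) (e : Y.E i)
    {w : W} (hw : w ∈ par cs (Y.mir i e)) : φ h w ∈ par cs (Y.mir i (h • e)) := by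
  have h1 : par cs (Y.mir i e) ≤ (par cs (Y.mir i (h • e))).comap (φ h).toMonoidHom := by
    refine (Subgroup.closure_le _).2 ?_
    rintro _ ⟨b, hb, rfl⟩
    change φ h (cs.simple b) ∈ par cs (Y.mir i (h • e))
    rw [hφ]
    refine Subgroup.subset_closure ⟨h • b, ?_, rfl⟩
    rw [Y.mir_smul]
    exact ⟨b, hb, rfl⟩
  exact h1 hw

variable (cs φ Y) in
/-- the action -/
def sm (i : ℕ) (g : W ⋊[φ] H) (x : Cell cs Y i) : Cell cs Y i :=
  cell cs Y i (g.right • x.1) (g.left * φ g.right x.2.out)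

theorem sm_cell (hφ : ∀ h b, φ h (cs.simple b) = cs.simple (h • b)) (i : ℕ) (g : W ⋊[φ] H)
    (e : Y.E i) (w : W) :
    sm cs φ Y i g (cell cs Y i e w) = cell cs Y i (g.right • e) (g.left * φ g.right w) := by
  unfold sm
  rw [cell_eq_iff]
  refine ⟨rfl, ?_⟩
  have h1 := par_phi hφ g.right i e (out_mem i e w)
  change (g.left * φ g.right (cell cs Y i e w).2.out)⁻¹ * (g.left * φ g.right w) ∈
    par cs (Y.mir i (g.right • e))
  rw [map_mul, map_inv] at h1
  have h2 : (g.left * φ g.right (cell cs Y i e w).2.out)⁻¹ * (g.left * φ g.right w) =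
      (φ g.right (cell cs Y i e w).2.out)⁻¹ * φ g.right w := by group
  rw [h2]
  exact h1

variable (Y) in
/-- the action of `W ⋊ H` -/
def actC (hφ : ∀ h b, φ h (cs.simple b) = cs.simple (h • b)) (i : ℕ) :
    MulAction (W ⋊[φ] H) (Cell cs Y i) where
  smul := sm cs φ Y i
  one_smul x := by
    obtain ⟨e, w, rfl⟩ := cell_surj i x
    refine (sm_cell hφ i 1 e w).trans ?_
    rw [cell_eq_iff]
    refine ⟨one_smul H e, ?_⟩
    have h1 : ((1 : W ⋊[φ] H).left * φ (1 : W ⋊[φ] H).right w) = w := by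
      change 1 * φ 1 w = w
      rw [map_one, MulAut.one_apply, one_mul]
    rw [h1, inv_mul_cancel]
    exact Subgroup.one_mem _
  mul_smul g g' x := by
    obtain ⟨e, w, rfl⟩ := cell_surj i x
    refine (sm_cell hφ i (g * g') e w).trans ?_
    change _ = sm cs φ Y i g (sm cs φ Y i g' (cell cs Y i e w))
    rw [sm_cell hφ, sm_cell hφ, cell_eq_iff]
    refine ⟨mul_smul g.right g'.right e, ?_⟩
    have h1 : (g * g').left * φ (g * g').right w =
        g.left * φ g.right (g'.left * φ g'.right w) := by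
      change g.left * φ g.right g'.left * φ (g.right * g'.right) w = _
      rw [map_mul, MulAut.mul_apply, map_mul, mul_assoc]
    rw [h1, inv_mul_cancel]
    exact Subgroup.one_mem _

theorem bdCell_cell (i : ℕ) (e : Y.E (i + 1)) (w : W) :
    bdCell cs Y i (cell cs Y (i + 1) e w) = (Y.bd i e).mapDomain (fun f => cell cs Y i f w) := by
  unfold bdCell
  refine Finsupp.mapDomain_congr fun f hf => ?_
  rw [Finsupp.mem_support_iff] at hf
  rw [cell_eq_iff]
  refine ⟨rfl, ?_⟩
  have h1 := Y.mir_face i e f hf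
  exact Subgroup.closure_mono (Set.image_mono h1) (out_mem (i + 1) e w)

theorem bdCell_sm (hφ : ∀ h b, φ h (cs.simple b) = cs.simple (h • b)) (i : ℕ) (g : W ⋊[φ] H)
    (x : Cell cs Y (i + 1)) :
    bdCell cs Y i (sm cs φ Y (i + 1) g x) = (bdCell cs Y i x).mapDomain (sm cs φ Y i g) := by
  obtain ⟨e, w, rfl⟩ := cell_surj (i + 1) x
  rw [sm_cell hφ, bdCell_cell, bdCell_cell, Y.bd_smul, ← Finsupp.mapDomain_comp,
    ← Finsupp.mapDomain_comp]
  congr 1
  funext f
  exact (sm_cell hφ i g f w).symm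

/-- the boundary -/
def bdH (cs : CoxeterSystem M W) (Y : Mirrored H B) (i : ℕ) :
    (Cell cs Y (i + 1) →₀ ℤ) →+ (Cell cs Y i →₀ ℤ) where
  toFun := bdU cs Y i
  map_zero' := rfl
  map_add' x y := Finsupp.sum_add_index' (fun a => zero_smul ℤ _) (fun a b c => add_smul b c _)

theorem bdH_single (i : ℕ) (x : Cell cs Y (i + 1)) (n : ℤ) :
    bdH cs Y i (Finsupp.single x n) = n • bdCell cs Y i x := by
  change ((Finsupp.single x n).sum fun x n => n • bdCell cs Y i x) = _
  exact Finsupp.sum_single_index (zero_smul ℤ (bdCell cs Y i x))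

end

theorem cell_job : S_CELL := by
  intro B M W _ cs H _ _ φ hφ Y hA
  let act : ∀ i, MulAction (W ⋊[φ] H) (Cell cs Y i) := actC Y hφ
  refine ⟨{
    E := Cell cs Y
    act := act
    bd := bdH cs Y
    bd_smul := ?_
    len := Y.len
    isEmpty := fun i hi => ⟨fun x => (Y.isEmpty i hi).elim x.1⟩
    nonempty := hA.nonempty.map fun e => cell cs Y 0 e 1
    exact_zero := hA.exact_zero
    exact_succ := hA.exact_succ }, cell cs Y, ?_, ?_, ?_, ?_⟩
  · intro i g x
    change bdH cs Y i (x.mapDomain (sm cs φ Y (i + 1) g)) =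
      (bdH cs Y i x).mapDomain (sm cs φ Y i g)
    induction x using Finsupp.induction_linear with
    | zero => rw [Finsupp.mapDomain_zero, map_zero, Finsupp.mapDomain_zero]
    | add x y hx hy =>
      rw [Finsupp.mapDomain_add, map_add, hx, hy, map_add, Finsupp.mapDomain_add]
    | single x n =>
      rw [Finsupp.mapDomain_single, bdH_single, bdH_single, bdCell_sm hφ,
        Finsupp.mapDomain_smul]
  · exact fun i x => cell_surj i x
  · exact fun i e e' w w' => cell_eq_iff i e e' w w'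
  · exact fun i g e w => sm_cell hφ i g e w
  · intro i e w
    change bdH cs Y i (Finsupp.single (cell cs Y (i + 1) e w) 1) = _
    rw [bdH_single, one_smul, bdCell_cell]

end

end Pool.Agent.U838.ZD
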