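import Pool.Agent.Q169.ZD.Defs

/-!
# Growth series and the weighted Euler characteristic of a complex with mirrors
-/

set_option autoImplicit false

namespace Pool.Agent.U838.ZD

open Pool.Agent.Q169.ZD

noncomputable section

open scoped Classical

variable {B : Type} {M : CoxeterMatrix B} {W : Type} [Group W] (cs : CoxeterSystem M W)
  {H : Type} [Group H] [MulAction H B] (Y : Mirrored H B)

/-- The growth series `W_T(q) = ∑_{u ∈ W_T} q(u)` of the special subgroup `W_T`. -/
def growth (q : W → ℝ) (T : Set B) : ℝ := ∑ᶠ u : par cs T, q (u : W)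

/-- The weighted Euler characteristic `∑_a (-1)^(dim a) / W_(mir a)(q)`, where `a` runs over the
orbits of the cells of `Y`. -/
def weightedEuler (q : W → ℝ) : ℝ :=
  ∑ i ∈ Finset.range (Y.len + 1), ∑ a : Fin (Y.c i), (-1 : ℝ) ^ i /
    growth cs q (Y.mir i (Y.rep i a))

/-- The Euler characteristic of `Y / H`. -/
def euler : ℤ := ∑ i ∈ Finset.range (Y.len + 1), (-1) ^ i * (Y.c i : ℤ)

/-- The Euler characteristic of the pair `(Y / H, ∂ Y / H)`, `∂ Y` the union of the mirrors. -/
def relEuler : ℤ := ∑ i ∈ Finset.range (Y.len + 1), ∑ a : Fin (Y.c i),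
  if Y.mir i (Y.rep i a) = ∅ then (-1) ^ i else 0

end

end Pool.Agent.U838.ZD
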