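import Pool.Agent.U838.ZD.Exact
import Pool.Agent.U838.ZD.WDefs
import Pool.Agent.U838.ZD.Res
import Pool.Agent.U838.RT.Orb
import Pool.Agent.Q241.ZD.Ltwo

/-!
# The weighted Euler characteristic and zero in the spectrum
-/

set_option autoImplicit false

open scoped ENNReal

namespace Pool.Agent.U838.ZD

open Pool.Agent.Q169.ZD
open Pool.Agent.TH38.CX (AcyclicGComplex)
open Pool.Agent.H919R4.ZS (FinRes toRed)
open Pool.Agent.TH38.ZT (ExAt exAt_iff)
open Pool.Agent.U838.RT (resN cofin exists_rep)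
open Filter Topology

noncomputable section

open scoped Classical

section

variable {B : Type} {M : CoxeterMatrix B} {W : Type} [Group W] (cs : CoxeterSystem M W)
  {H : Type} [Group H] [MulAction H B] (Y : Mirrored H B)

variable {cs} {Y} {φ : H →* MulAut W}

theorem sum_II (f : ∀ i, Fin (Y.c i) → ℝ) : ∑ j : II Y, f j.1 j.2 =
    ∑ i ∈ Finset.range (Y.len + 1), ∑ a : Fin (Y.c i), f i a := by
  rw [Fintype.sum_sigma, ← Fin.sum_univ_eq_sum_range (fun i => ∑ a : Fin (Y.c i), f i a)]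

theorem sign_eq (i : ℕ) : (if Even i then (1 : ℝ) else -1) = (-1) ^ i := by
  by_cases h : Even i
  · rw [if_pos h, h.neg_one_pow]
  · rw [if_neg h, (Nat.not_even_iff_odd.1 h).neg_one_pow]

variable (cs) in
/-- a finite special subgroup as a finite set -/
def pf (T : Set B) (hT : Finite (par cs T)) : Finset W :=
  (@Set.toFinite W (par cs T : Set W) hT).toFinset

theorem mem_pf {T : Set B} (hT : Finite (par cs T)) (u : W) : u ∈ pf cs T hT ↔ u ∈ par cs T :=
  Set.Finite.mem_toFinset _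

theorem growth_eq {q : W → ℝ} {T : Set B} (hT : Finite (par cs T)) :
    growth cs q T = ∑ u ∈ pf cs T hT, q u := by
  have : Fintype (par cs T) := Fintype.ofFinite _
  unfold growth
  rw [finsum_eq_sum_of_fintype]
  exact Finset.sum_bij (fun u _ => (u : W)) (fun u _ => (mem_pf hT _).2 u.2)
    (fun u _ v _ h => Subtype.ext h)
    (fun u hu => ⟨⟨u, (mem_pf hT _).1 hu⟩, Finset.mem_univ _, rfl⟩) (fun u _ => rfl)

variable {E : Ext (W ⋊[φ] H)} {hS : E.S = {s | ∃ b : B, s = ⟨cs.simple b, 1⟩}}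
  {hl : ∀ g, E.len g = cs.length g.left} {hfin : ∀ i e, Finite (par cs (Y.mir i e))}
  {hφ : ∀ h b, φ h (cs.simple b) = cs.simple (h • b)} {hY : DDY Y}

theorem wt_eq (C : Cx E (II Y)) (hC : ∀ j, C.T j = TT cs φ Y j)
    (hfin : ∀ i e, Finite (par cs (Y.mir i e))) (q : W → ℝ) (j : II Y) :
    C.wt (fun g => q g.left) j = growth cs q (Y.mir j.1 (Y.rep j.1 j.2)) := by
  rw [growth_eq (hfin _ _)]
  have hm : ∀ g, g ∈ C.U j ↔ g.right = 1 ∧ g.left ∈ par cs (Y.mir j.1 (Y.rep j.1 j.2)) := by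
    intro g
    rw [C.mem_U, hC]
    exact mem_closure_TT Y j g
  exact Finset.sum_bij (fun g _ => g.left) (fun g hg => (mem_pf _ _).2 ((hm g).1 hg).2)
    (fun g hg g' hg' h => SemidirectProduct.ext h (((hm g).1 hg).1.trans ((hm g').1 hg').1.symm))
    (fun u hu => ⟨⟨u, 1⟩, (hm _).2 ⟨rfl, (mem_pf _ _).1 hu⟩, rfl⟩) (fun u _ => rfl)

theorem weight_ext (hS : E.S = {s | ∃ b : B, s = ⟨cs.simple b, 1⟩})
    (hl : ∀ g, E.len g = cs.length g.left)
    (hφ : ∀ h b, φ h (cs.simple b) = cs.simple (h • b)) {q : W → ℝ} (hq : IsWeight cs q)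
    (hqφ : ∀ h w, q (φ h w) = q w) : Wt E (fun g => q g.left) where
  pos g := hq.pos _
  one := hq.one
  zero_mul h hh g := by
    rw [hl] at hh
    change q (h.left * φ h.right g.left) = q g.left
    rw [cs.length_eq_zero_iff.1 hh, one_mul, hqφ]
  mul_zero h hh g := by
    rw [hl] at hh
    change q (g.left * φ g.right h.left) = q g.left
    rw [cs.length_eq_zero_iff.1 hh, map_one, mul_one]
  mul s hs g hg := by
    rw [hS] at hs
    obtain ⟨b, rfl⟩ := hs
    rw [hl, hl] at hg
    change cs.length g.left < cs.length (g.left * φ g.right (cs.simple b)) at hg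
    change q (g.left * φ g.right (cs.simple b)) = q g.left * q (cs.simple b)
    rw [hφ] at hg ⊢
    rw [hq.mul_simple _ _ hg, ← hφ, hqφ]
  smul s hs g hg := by
    rw [hS] at hs
    obtain ⟨b, rfl⟩ := hs
    rw [hl, hl] at hg
    change cs.length g.left < cs.length (cs.simple b * φ 1 g.left) at hg
    change q (cs.simple b * φ 1 g.left) = q (cs.simple b) * q g.left
    rw [map_one, MulAut.one_apply] at hg ⊢
    rw [hq.simple_mul _ _ hg]

theorem isWeight_pow {r : ℝ} (hr : 0 < r) : IsWeight cs (fun w => r ^ cs.length w) where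
  one := by rw [cs.length_one, pow_zero]
  pos w := pow_pos hr _
  simple_mul w b h := by
    have h1 : cs.length (cs.simple b * w) = cs.length w + 1 := by
      rcases cs.length_simple_mul w b with h2 | h2 <;> omega
    rw [h1, cs.length_simple, pow_succ, pow_one, mul_comm]
  mul_simple w b h := by
    have h1 : cs.length (w * cs.simple b) = cs.length w + 1 := by
      rcases cs.length_mul_simple w b with h2 | h2 <;> omega
    rw [h1, cs.length_simple, pow_succ, pow_one]

/-- the limit `r → 0` -/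
theorem euler_zero (hfin : ∀ i e, Finite (par cs (Y.mir i e)))
    (h : ∀ r : ℝ, 0 < r → weightedEuler cs Y (fun w => r ^ cs.length w) = 0) : euler Y = 0 := by
  let f : ℝ → ℝ := fun r => ∑ i ∈ Finset.range (Y.len + 1), ∑ a : Fin (Y.c i), (-1 : ℝ) ^ i /
    ∑ u ∈ pf cs (Y.mir i (Y.rep i a)) (hfin i (Y.rep i a)), r ^ cs.length u
  have hf : ∀ r, 0 < r → f r = 0 := by
    intro r hr
    rw [← h r hr]
    unfold weightedEuler
    refine Finset.sum_congr rfl fun i _ => Finset.sum_congr rfl fun a _ => ?_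
    rw [growth_eq (hfin i (Y.rep i a))]
  have h1 : ∀ i a, ∑ u ∈ pf cs (Y.mir i (Y.rep i a)) (hfin i (Y.rep i a)), (0 : ℝ) ^ cs.length u = 1 := by
    intro i a
    rw [Finset.sum_eq_single 1]
    · rw [cs.length_one, pow_zero]
    · intro u _ hu
      exact zero_pow fun h => hu (cs.length_eq_zero_iff.1 h)
    · intro hn
      exact absurd ((mem_pf _ _).2 (Subgroup.one_mem _)) hn
  have hc : ContinuousAt f 0 := by
    refine tendsto_finsetSum _ fun i _ => tendsto_finsetSum _ fun a _ => ?_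
    refine Tendsto.div tendsto_const_nhds ?_ (by rw [h1]; exact one_ne_zero)
    exact tendsto_finsetSum _ fun u _ => (continuous_pow _).continuousAt
  have h0 : f 0 = 0 := by
    have h2 : Tendsto f (𝓝[>] 0) (𝓝 (f 0)) := hc.tendsto.mono_left nhdsWithin_le_nhds
    have h3 : Tendsto f (𝓝[>] 0) (𝓝 0) := by
      refine tendsto_const_nhds.congr' ?_
      filter_upwards [self_mem_nhdsWithin] with r hr
      exact (hf r hr).symm
    exact tendsto_nhds_unique h2 h3
  have h4 : f 0 = ((euler Y : ℤ) : ℝ) := by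
    unfold euler
    push_cast
    refine Finset.sum_congr rfl fun i _ => ?_
    rw [Finset.sum_congr rfl fun a _ => by rw [h1 i a, div_one], Finset.sum_const,
      Finset.card_univ, Fintype.card_fin, nsmul_eq_mul, mul_comm]
  rw [h4] at h0
  exact_mod_cast h0

/-- the limit `r → ∞` -/
theorem relEuler_zero (hfin : ∀ i e, Finite (par cs (Y.mir i e)))
    (h : ∀ r : ℝ, 0 < r → weightedEuler cs Y (fun w => r ^ cs.length w) = 0) :
    relEuler Y = 0 := by
  let f : ℝ → ℝ := fun r => ∑ i ∈ Finset.range (Y.len + 1), ∑ a : Fin (Y.c i), (-1 : ℝ) ^ i /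
    ∑ u ∈ pf cs (Y.mir i (Y.rep i a)) (hfin i (Y.rep i a)), r ^ cs.length u
  have hf : ∀ r, 0 < r → f r = 0 := by
    intro r hr
    rw [← h r hr]
    unfold weightedEuler
    refine Finset.sum_congr rfl fun i _ => Finset.sum_congr rfl fun a _ => ?_
    rw [growth_eq (hfin i (Y.rep i a))]
  have hlim : Tendsto f atTop (𝓝 ((relEuler Y : ℤ) : ℝ)) := by
    unfold relEuler
    push_cast
    refine tendsto_finsetSum _ fun i _ => tendsto_finsetSum _ fun a _ => ?_
    by_cases hm : Y.mir i (Y.rep i a) = ∅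
    · rw [if_pos hm]
      have h1 : (fun r : ℝ => (-1 : ℝ) ^ i / ∑ u ∈ pf cs (Y.mir i (Y.rep i a)) (hfin i (Y.rep i a)), r ^ cs.length u) =
          fun _ => (-1 : ℝ) ^ i := by
        funext r
        rw [Finset.sum_eq_single 1]
        · rw [cs.length_one, pow_zero, div_one]
        · intro u hu hu1
          rw [mem_pf, hm] at hu
          have h2 : par cs (∅ : Set B) = ⊥ := by
            change Subgroup.closure (cs.simple '' ∅) = ⊥
            rw [Set.image_empty, Subgroup.closure_empty]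
          have h3 : u ∈ par cs (∅ : Set B) := hu
          rw [h2] at h3
          exact absurd (Subgroup.mem_bot.1 h3) hu1
        · intro hn
          exact absurd ((mem_pf _ _).2 (Subgroup.one_mem _)) hn
      rw [h1]
      exact tendsto_const_nhds
    · rw [if_neg hm]
      obtain ⟨b, hb⟩ := Set.nonempty_iff_ne_empty.2 hm
      have h1 : Tendsto (fun r : ℝ => ∑ u ∈ pf cs (Y.mir i (Y.rep i a)) (hfin i (Y.rep i a)), r ^ cs.length u) atTop atTop := by
        refine tendsto_atTop_mono' _ ?_ tendsto_id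
        filter_upwards [eventually_gt_atTop (0 : ℝ)] with r hr
        have h2 : cs.simple b ∈ pf cs (Y.mir i (Y.rep i a)) (hfin i (Y.rep i a)) :=
          (mem_pf _ _).2 (Subgroup.subset_closure ⟨b, hb, rfl⟩)
        have h3 := Finset.single_le_sum (f := fun u => r ^ cs.length u)
          (fun u _ => (pow_pos hr _).le) h2
        rw [cs.length_simple, pow_one] at h3
        exact h3
      exact tendsto_const_nhds.div_atTop h1
  have h3 : Tendsto f atTop (𝓝 0) := by
    refine tendsto_const_nhds.congr' ?_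
    filter_upwards [eventually_gt_atTop (0 : ℝ)] with r hr
    exact (hf r hr).symm
  have h4 := tendsto_nhds_unique hlim h3
  exact_mod_cast h4

end

/-- the consequence of the exactness of the square summable cochains -/
theorem core {B : Type} {M : CoxeterMatrix B} {W : Type} [Group W] (cs : CoxeterSystem M W)
    {H : Type} [Group H] [MulAction H B] (φ : H →* MulAut W)
    (hφ : ∀ h b, φ h (cs.simple b) = cs.simple (h • b)) (Y : Mirrored H B)
    (hfin : ∀ i e, Finite (par cs (Y.mir i e))) (U : AcyclicGComplex (W ⋊[φ] H))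
    (κ : ∀ i, Y.E i → W → U.E i) (hU : IsU cs Y U κ) (hL : L2Ex U.E (fun i => U.bd i)) :
    (∀ q : W → ℝ, IsWeight cs q → (∀ h w, q (φ h w) = q w) → weightedEuler cs Y q = 0) ∧
      euler Y = 0 ∧ relEuler Y = 0 := by
  obtain ⟨E, hS, hl⟩ := ext_job B M W cs H φ hφ
  have hex := exact_cx (E := E) (hS := hS) (hl := hl) (hfin := hfin) (hφ := hφ) hU (ddy hU) hL
  have hmain : ∀ q : W → ℝ, IsWeight cs q → (∀ h w, q (φ h w) = q w) →
      weightedEuler cs Y q = 0 := by
    intro q hq hqφ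
    have h5 := engine _ hex (weight_ext hS hl hφ hq hqφ)
    rw [← h5]
    unfold weightedEuler
    rw [← sum_II (fun i a => (-1 : ℝ) ^ i / growth cs q (Y.mir i (Y.rep i a)))]
    refine Finset.sum_congr rfl fun j _ => ?_
    rw [wt_eq _ (fun j => rfl) hfin]
    congr 1
    exact (sign_eq _).symm
  have hpow : ∀ r : ℝ, 0 < r → weightedEuler cs Y (fun w => r ^ cs.length w) = 0 :=
    fun r hr => hmain _ (isWeight_pow hr) fun h w => by rw [len_phi hφ]
  exact ⟨hmain, euler_zero hfin hpow, relEuler_zero hfin hpow⟩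

/-- the stabilisers of the cells are finite -/
theorem stab_finite {B : Type} {M : CoxeterMatrix B} {W : Type} [Group W] (cs : CoxeterSystem M W)
    {H : Type} [Group H] [MulAction H B] (φ : H →* MulAut W) (Y : Mirrored H B)
    (hfin : ∀ i e, Finite (par cs (Y.mir i e))) (U : AcyclicGComplex (W ⋊[φ] H))
    (κ : ∀ i, Y.E i → W → U.E i) (hU : IsU cs Y U κ) (i : ℕ) (g : W ⋊[φ] H) (e : U.E i)
    (hg : g • e = e) : IsOfFinOrder g := by
  obtain ⟨y, w, rfl⟩ := hU.surj i e
  rw [hU.act, hU.eq] at hg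
  obtain ⟨h6, h7⟩ := hg
  have h8 : g.right = 1 := Y.free i _ _ h6
  rw [h8, one_smul, map_one, MulAut.one_apply] at h7
  have := hfin i y
  have h9 : IsOfFinOrder ((g.left * w)⁻¹ * w) := by
    have h10 : IsOfFinOrder (⟨_, h7⟩ : par cs (Y.mir i y)) := isOfFinOrder_of_finite _
    exact (Submonoid.isOfFinOrder_coe (x := (⟨_, h7⟩ : par cs (Y.mir i y)))).2 h10
  have h10 : (g.left * w)⁻¹ * w = w⁻¹ * g.left⁻¹ * w := by group
  rw [h10] at h9
  have h11 : IsOfFinOrder g.left := by
    have h12 := MonoidHom.isOfFinOrder (MulAut.conj w).toMonoidHom h9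
    have h13 : (MulAut.conj w).toMonoidHom (w⁻¹ * g.left⁻¹ * w) = g.left⁻¹ := by
      change w * (w⁻¹ * g.left⁻¹ * w) * w⁻¹ = _
      group
    rw [h13] at h12
    exact isOfFinOrder_inv_iff.1 h12
  have h12 : g = SemidirectProduct.inl g.left := SemidirectProduct.ext rfl h8
  rw [h12]
  exact MonoidHom.isOfFinOrder (SemidirectProduct.inl : W →* W ⋊[φ] H) h11

/-- a free action with finitely many orbits gives a resolution and exact square summable
cochains -/
theorem sub {G : Type} [Group G] (U : AcyclicGComplex G) (N : Subgroup G) [N.FiniteIndex]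
    (hfree : ∀ i (n : N) (e : (resN U N).E i), n • e = e → n = 1)
    (hco : ∀ i, ∃ s : Finset (U.E i), ∀ e : U.E i, ∃ g : G, g • e ∈ s) :
    Nonempty (FinRes N) ∧ ∀ X : FinRes N, (∀ i, Subsingleton (X.homology (toRed N) i)) →
      L2Ex U.E (fun i => U.bd i) := by
  have hrep : ∀ i, ∃ (c : ℕ) (rep : Fin c → (resN U N).E i), ∀ e,
      ∃! a, e ∈ MulAction.orbit N (rep a) := by
    intro i
    obtain ⟨s, hs⟩ := hco i
    obtain ⟨s', hs'⟩ := cofin N ⊤ (Set.univ : Set (U.E i)) s (fun e _ => by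
        obtain ⟨g, hg⟩ := hs e
        exact ⟨g, trivial, hg⟩)
    refine exists_rep (L := N) (E := (resN U N).E i) s' fun e => ?_
    obtain ⟨a, ha, hae⟩ := hs' e trivial
    exact ⟨⟨a, ha.1⟩, hae⟩
  choose c rep hrep using hrep
  obtain ⟨X₀, -⟩ := res N (resN U N) hfree c rep hrep
  refine ⟨⟨X₀⟩, fun X hX => ?_⟩
  exact Pool.Agent.Q241.ZD.ltwo res N (resN U N) hfree c rep hrep X
    (fun i => (exAt_iff X (toRed N) i).2 (hX i))

theorem cofin_U {B : Type} {M : CoxeterMatrix B} {W : Type} [Group W] {cs : CoxeterSystem M W}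
    {H : Type} [Group H] [MulAction H B] {φ : H →* MulAut W} {Y : Mirrored H B}
    {U : AcyclicGComplex (W ⋊[φ] H)} {κ : ∀ i, Y.E i → W → U.E i} (hU : IsU cs Y U κ) (i : ℕ)
    (e : U.E i) : ∃ g : W ⋊[φ] H,
      g • e ∈ (Finset.univ.image fun a : Fin (Y.c i) => κ i (Y.rep i a) 1) := by
  obtain ⟨y, w, rfl⟩ := hU.surj i e
  obtain ⟨a, η, rfl⟩ := exists_orb Y i y
  refine ⟨(⟨w, η⟩ : W ⋊[φ] H)⁻¹, ?_⟩
  rw [Finset.mem_image]
  refine ⟨a, Finset.mem_univ _, ?_⟩
  rw [eq_inv_smul_iff, hU.act]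
  change κ i (η • Y.rep i a) (w * φ η 1) = _
  rw [map_one, mul_one]

/-- **Main theorem.** -/
theorem final {B : Type} {M : CoxeterMatrix B} {W : Type} [Group W] (cs : CoxeterSystem M W)
    {H : Type} [Group H] [MulAction H B] (φ : H →* MulAut W)
    (hφ : ∀ h b, φ h (cs.simple b) = cs.simple (h • b)) (Y : Mirrored H B)
    (hA : IsAcyclic cs Y) (hfin : ∀ i e, Finite (par cs (Y.mir i e)))
    (N : Subgroup (W ⋊[φ] H)) [N.FiniteIndex] (hN : ∀ g ∈ N, IsOfFinOrder g → g = 1) :
    Nonempty (FinRes N) ∧ ∀ X : FinRes N, (∀ i, Subsingleton (X.homology (toRed N) i)) →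
      (∀ q : W → ℝ, IsWeight cs q → (∀ h w, q (φ h w) = q w) → weightedEuler cs Y q = 0) ∧
      euler Y = 0 ∧ relEuler Y = 0 := by
  obtain ⟨U, κ, h1, h2, h3, h4⟩ := cell_job B M W cs H φ hφ Y hA
  have hU : IsU cs Y U κ := ⟨h1, h2, h3, h4⟩
  obtain ⟨h5, h6⟩ := sub U N
    (fun i n e hn => Subtype.ext (hN _ n.2 (stab_finite cs φ Y hfin U κ hU i n e hn)))
    (fun i => ⟨_, cofin_U hU i⟩)
  exact ⟨h5, fun X hX => core cs φ hφ Y hfin U κ hU (h6 X hX)⟩

end

end Pool.Agent.U838.ZD
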