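import Pool.Agent.Q169.ZD.Stm

/-!
# The jobs GAP and SMALL
-/

set_option autoImplicit false

open scoped InnerProductSpace

namespace Pool.Agent.U838.ZD

open Pool.Agent.Q169.ZD

noncomputable section

variable (V : Type) [NormedAddCommGroup V] [InnerProductSpace ℂ V] [CompleteSpace V]

theorem gap : S_GAP V := by
  intro P D hPP hPa hPDP hDDP hex
  have hP1 : ∀ x, P (P x) = P x := fun x => congrArg (fun T : V →L[ℂ] V => T x) hPP
  have hP2 : ∀ x, P (D (P x)) = D (P x) := fun x => congrArg (fun T : V →L[ℂ] V => T x) hPDP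
  have hP3 : ∀ x, D (D (P x)) = 0 := fun x => congrArg (fun T : V →L[ℂ] V => T x) hDDP
  -- the subspaces
  let M : Submodule ℂ V := LinearMap.ker ((P - 1 : V →L[ℂ] V) : V →ₗ[ℂ] V)
  have hM : ∀ x, x ∈ M ↔ P x = x := by
    intro x
    change (P - 1 : V →L[ℂ] V) x = 0 ↔ _
    rw [sub_apply, one_apply_eq_self, sub_eq_zero]
  let Z : Submodule ℂ V := M ⊓ LinearMap.ker (D : V →ₗ[ℂ] V)
  have hZ : ∀ x, x ∈ Z ↔ P x = x ∧ D x = 0 := fun x => and_congr (hM x) Iff.rfl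
  have hMc : IsClosed (M : Set V) := (P - 1 : V →L[ℂ] V).isClosed_ker
  have hZc : IsClosed (Z : Set V) := hMc.inter D.isClosed_ker
  have : CompleteSpace M := hMc.completeSpace_coe
  have : CompleteSpace Z := hZc.completeSpace_coe
  let d : M →L[ℂ] Z := (D.comp M.subtypeL).codRestrict Z (fun x => by
    have hx := (hM x.1).1 x.2
    refine (hZ _).2 ⟨?_, ?_⟩
    · change P (D x.1) = D x.1
      rw [← hx]
      exact hP2 x.1
    · change D (D x.1) = 0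
      rw [← hx]
      exact hP3 x.1)
  have hd : ∀ x : M, ((d x : Z) : V) = D x.1 := fun x => rfl
  have hsurj : Function.Surjective d := by
    intro z
    obtain ⟨y, hy, hyz⟩ := hex z.1 ((hZ _).1 z.2).1 ((hZ _).1 z.2).2
    exact ⟨⟨y, (hM y).2 hy⟩, Subtype.ext hyz⟩
  obtain ⟨C, hC, hC'⟩ := ContinuousLinearMap.exists_preimage_norm_le d hsurj
  refine ⟨C * (1 + C * ‖D‖) + C, by positivity, fun x hx => ?_⟩
  obtain ⟨x', hx', hx'n⟩ := hC' (d ⟨x, (hM x).2 hx⟩)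
  have h1 : D x'.1 = D x := congrArg (fun z : Z => (z : V)) hx'
  have h2 : ‖x'.1‖ ≤ C * ‖D x‖ := hx'n
  have h3 : x - x'.1 ∈ Z := by
    refine (hZ _).2 ⟨?_, ?_⟩
    · rw [map_sub, hx, (hM _).1 x'.2]
    · rw [map_sub, h1, sub_self]
  obtain ⟨w, hw, hwn⟩ := hC' ⟨_, h3⟩
  have h4 : D w.1 = x - x'.1 := congrArg (fun z : Z => (z : V)) hw
  have h5 : ‖w.1‖ ≤ C * ‖x - x'.1‖ := hwn
  have h6 : P w.1 = w.1 := (hM _).1 w.2
  have h7 : ‖x - x'.1‖ ≤ ‖x‖ + C * (‖D‖ * ‖x‖) := by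
    refine (norm_sub_le _ _).trans (add_le_add le_rfl (h2.trans ?_))
    exact mul_le_mul_of_nonneg_left (D.le_opNorm x) hC.le
  have h8 : ‖w.1‖ ≤ C * (1 + C * ‖D‖) * ‖x‖ := by
    refine h5.trans ((mul_le_mul_of_nonneg_left h7 hC.le).trans (le_of_eq ?_))
    ring
  have h9 : ‖x‖ ^ 2 ≤ ‖x‖ * (C * ‖D x‖) +
      ‖P (ContinuousLinearMap.adjoint D x)‖ * (C * (1 + C * ‖D‖) * ‖x‖) := by
    have e1 : (‖x‖ ^ 2 : ℝ) = ‖⟪x, x⟫_ℂ‖ := by
      rw [inner_self_eq_norm_sq_to_K]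
      simp
    have e2 : ⟪x, x⟫_ℂ = ⟪x, x'.1⟫_ℂ + ⟪P (ContinuousLinearMap.adjoint D x), w.1⟫_ℂ := by
      have e3 : ⟪P (ContinuousLinearMap.adjoint D x), w.1⟫_ℂ = ⟪x, x - x'.1⟫_ℂ := by
        have f1 : ∀ a b, ⟪P a, b⟫_ℂ = ⟪a, P b⟫_ℂ := by
          intro a b
          conv_lhs => rw [← hPa]
          exact ContinuousLinearMap.adjoint_inner_left P b a
        rw [← h4, f1, h6, ContinuousLinearMap.adjoint_inner_left]
      rw [e3, ← inner_add_right, add_sub_cancel]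
    rw [e1, e2]
    refine (norm_add_le _ _).trans (add_le_add ?_ ?_)
    · exact (norm_inner_le_norm _ _).trans (mul_le_mul_of_nonneg_left h2 (norm_nonneg _))
    · exact (norm_inner_le_norm _ _).trans (mul_le_mul_of_nonneg_left h8 (norm_nonneg _))
  rcases eq_or_lt_of_le (norm_nonneg x) with h0 | h0
  · rw [← h0]
    positivity
  · have h10 : ‖x‖ * ‖x‖ ≤ ‖x‖ * (C * ‖D x‖ +
        ‖P (ContinuousLinearMap.adjoint D x)‖ * (C * (1 + C * ‖D‖))) := by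
      calc ‖x‖ * ‖x‖ = ‖x‖ ^ 2 := by ring
        _ ≤ _ := h9
        _ = _ := by ring
    have h11 := le_of_mul_le_mul_left h10 h0
    have h12 : 0 ≤ C * (1 + C * ‖D‖) := by positivity
    nlinarith [norm_nonneg (D x), norm_nonneg (P (ContinuousLinearMap.adjoint D x)),
      mul_nonneg h12 (norm_nonneg (D x)), mul_nonneg hC.le
        (norm_nonneg (P (ContinuousLinearMap.adjoint D x)))]

theorem small : S_SMALL V := by
  intro P D hPP hPa hPDP K hK hgap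
  have hP1 : ∀ x, P (P x) = P x := fun x => congrArg (fun T : V →L[ℂ] V => T x) hPP
  have hP2 : ∀ x, P (D (P x)) = D (P x) := fun x => congrArg (fun T : V →L[ℂ] V => T x) hPDP
  set D' := ContinuousLinearMap.adjoint D with hD'
  have hsym : ∀ x y, ⟪P x, y⟫_ℂ = ⟪x, P y⟫_ℂ := by
    intro x y
    conv_lhs => rw [← hPa]
    exact ContinuousLinearMap.adjoint_inner_left P y x
  set Δ : V →L[ℂ] V := P ∘L D' ∘L D ∘L P + D ∘L P ∘L D' with hΔ
  have hΔx : ∀ x, Δ x = P (D' (D (P x))) + D (P (D' x)) := fun x => rfl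
  -- `P Δ x = Δ x`
  have hPΔ : ∀ x, P (Δ x) = Δ x := by
    intro x
    rw [hΔx, map_add, hP1]
    congr 1
    exact hP2 (D' x)
  -- the quadratic form
  have hq : ∀ x, P x = x → (⟪Δ x, x⟫_ℂ).re = ‖D x‖ ^ 2 + ‖P (D' x)‖ ^ 2 := by
    intro x hx
    have e1 : ⟪P (D' (D (P x))), x⟫_ℂ = ⟪D x, D x⟫_ℂ := by
      rw [hsym, hx, hD', ContinuousLinearMap.adjoint_inner_left]
    have e2 : ⟪D (P (D' x)), x⟫_ℂ = ⟪P (D' x), P (D' x)⟫_ℂ := by
      rw [← hsym, hP1, hD', ContinuousLinearMap.adjoint_inner_right]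
    rw [hΔx, inner_add_left, e1, e2, Complex.add_re]
    congr 1
    · exact inner_self_eq_norm_sq (𝕜 := ℂ) (D x)
    · exact inner_self_eq_norm_sq (𝕜 := ℂ) (P (D' x))
  set δ : ℝ := 1 / (2 * K ^ 2) with hδ
  have hδ0 : 0 < δ := by positivity
  have hlow : ∀ x, P x = x → δ * ‖x‖ ^ 2 ≤ (⟪Δ x, x⟫_ℂ).re := by
    intro x hx
    rw [hq x hx]
    have h1 := hgap x hx
    have h2 : ‖x‖ ^ 2 ≤ K ^ 2 * (‖D x‖ + ‖P (D' x)‖) ^ 2 := by
      rw [← mul_pow]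
      exact pow_le_pow_left₀ (norm_nonneg _) h1 2
    have h3 : (‖D x‖ + ‖P (D' x)‖) ^ 2 ≤ 2 * (‖D x‖ ^ 2 + ‖P (D' x)‖ ^ 2) := by
      nlinarith [sq_nonneg (‖D x‖ - ‖P (D' x)‖)]
    rw [hδ, div_mul_eq_mul_div, one_mul, div_le_iff₀ (by positivity)]
    nlinarith [mul_le_mul_of_nonneg_left h3 (sq_nonneg K)]
  set L : ℝ := ‖Δ‖ + 1 with hL
  have hL0 : 0 < L := by positivity
  set c : ℝ := δ / L ^ 2 with hc
  have hc0 : 0 < c := by positivity
  set ρ : ℝ := max 0 (1 - δ ^ 2 / L ^ 2) with hρ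
  have hρ1 : ρ < 1 := by
    rw [hρ, max_lt_iff]
    refine ⟨one_pos, ?_⟩
    have : 0 < δ ^ 2 / L ^ 2 := by positivity
    linarith
  have hρ0 : 0 ≤ ρ := le_max_left _ _
  have hmain : ∀ x, P x = x → ‖x - (c : ℂ) • Δ x‖ ^ 2 ≤ ρ * ‖x‖ ^ 2 := by
    intro x hx
    have e1 : ‖x - (c : ℂ) • Δ x‖ ^ 2 =
        ‖x‖ ^ 2 - 2 * (c * (⟪Δ x, x⟫_ℂ).re) + c ^ 2 * ‖Δ x‖ ^ 2 := by
      rw [@norm_sub_sq ℂ, norm_smul, mul_pow]
      have e2 : RCLike.re ⟪x, (c : ℂ) • Δ x⟫_ℂ = c * (⟪Δ x, x⟫_ℂ).re := by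
        rw [inner_smul_right]
        have e3 : ((⟪x, Δ x⟫_ℂ).re) = (⟪Δ x, x⟫_ℂ).re := by
          rw [← inner_conj_symm, Complex.conj_re]
        rw [← e3]
        change ((c : ℂ) * ⟪x, Δ x⟫_ℂ).re = _
        rw [Complex.re_ofReal_mul]
      rw [e2]
      have e4 : ‖(c : ℂ)‖ = c := by
        rw [Complex.norm_real, Real.norm_of_nonneg hc0.le]
      rw [e4]
    have h1 := hlow x hx
    have h2 : ‖Δ x‖ ^ 2 ≤ L ^ 2 * ‖x‖ ^ 2 := by
      rw [← mul_pow]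
      refine pow_le_pow_left₀ (norm_nonneg _) ((Δ.le_opNorm x).trans ?_) 2
      exact mul_le_mul_of_nonneg_right (by rw [hL]; linarith) (norm_nonneg _)
    have h3 : ‖x - (c : ℂ) • Δ x‖ ^ 2 ≤ (1 - 2 * c * δ + c ^ 2 * L ^ 2) * ‖x‖ ^ 2 := by
      rw [e1]
      have h4 := mul_le_mul_of_nonneg_left h1 hc0.le
      have h5 := mul_le_mul_of_nonneg_left h2 (sq_nonneg c)
      nlinarith
    refine h3.trans (mul_le_mul_of_nonneg_right ?_ (sq_nonneg _))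
    have h6 : 1 - 2 * c * δ + c ^ 2 * L ^ 2 = 1 - δ ^ 2 / L ^ 2 := by
      rw [hc]
      field_simp
      ring
    rw [h6]
    exact le_max_right _ _
  refine ⟨c, hc0.ne', ?_⟩
  have hPn : ∀ x, ‖P x‖ ≤ ‖x‖ := by
    intro x
    have h1 : ‖P x‖ ^ 2 ≤ ‖x‖ * ‖P x‖ := by
      have e1 : (‖P x‖ ^ 2 : ℝ) = ‖⟪P x, P x⟫_ℂ‖ := by
        rw [inner_self_eq_norm_sq_to_K]
        simp
      rw [e1, hsym, hP1]
      exact norm_inner_le_norm _ _
    rcases eq_or_lt_of_le (norm_nonneg (P x)) with h0 | h0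
    · rw [← h0]
      exact norm_nonneg _
    · rw [sq] at h1
      exact le_of_mul_le_mul_right h1 h0
  have hbound : ∀ x, ‖(P - (c : ℂ) • Δ) x‖ ≤ Real.sqrt ρ * ‖x‖ := by
    intro x
    have e1 : (P - (c : ℂ) • Δ) x = P x - (c : ℂ) • Δ (P x) := by
      have e2 : Δ (P x) = Δ x := by
        -- `Δ P = Δ` by taking adjoints
        have e3 : ∀ y, ⟪Δ (P x) - Δ x, y⟫_ℂ = 0 := by
          have hΔs : ∀ a b, ⟪Δ a, b⟫_ℂ = ⟪a, Δ b⟫_ℂ := by
            intro a b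
            rw [hΔx, hΔx, inner_add_left, inner_add_right]
            have f1 : ⟪P (D' (D (P a))), b⟫_ℂ = ⟪a, P (D' (D (P b)))⟫_ℂ := by
              rw [hsym, hD', ContinuousLinearMap.adjoint_inner_left, ← hsym,
                ContinuousLinearMap.adjoint_inner_right]
            have f2 : ⟪D (P (D' a)), b⟫_ℂ = ⟪a, D (P (D' b))⟫_ℂ := by
              rw [← ContinuousLinearMap.adjoint_inner_right, ← hD', hsym]
              conv_lhs => rw [hD', ContinuousLinearMap.adjoint_inner_left]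
            rw [f1, f2]
          intro y
          rw [inner_sub_left, hΔs, hΔs, hsym, hPΔ, sub_self]
        have e4 := e3 (Δ (P x) - Δ x)
        rw [inner_self_eq_zero] at e4
        exact sub_eq_zero.1 e4
      rw [e2]
      rfl
    rw [e1]
    have h1 := hmain (P x) (hP1 x)
    have h2 : ‖P x - (c : ℂ) • Δ (P x)‖ ^ 2 ≤ (Real.sqrt ρ * ‖x‖) ^ 2 := by
      rw [mul_pow, Real.sq_sqrt hρ0]
      refine h1.trans (mul_le_mul_of_nonneg_left ?_ hρ0)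
      exact pow_le_pow_left₀ (norm_nonneg _) (hPn x) 2
    exact (pow_le_pow_iff_left₀ (norm_nonneg _) (by positivity) two_ne_zero).1 h2
  refine (ContinuousLinearMap.opNorm_le_bound _ (Real.sqrt_nonneg _) hbound).trans_lt ?_
  rw [Real.sqrt_lt' one_pos]
  simpa using hρ1

end

end Pool.Agent.U838.ZD
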