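import Pool.Agent.Q169.ZD.Stm

/-!
# The jobs SUPER and ANA
-/

set_option autoImplicit false

open Filter Topology

namespace Pool.Agent.U838.ZD

open Pool.Agent.Q169.ZD

noncomputable section

theorem super (V : Type) [NormedAddCommGroup V] [NormedSpace ℂ V] : S_SUPER V := by
  intro 𝒜 τ K hadd hmul hsm htr hbd P D D' ε hP hD hD' hε hPP hPDP hPDP' hDDP hDDP' hεP hεD hεD' c hlt
  change P * P = P at hPP
  change P * (D * P) = D * P at hPDP
  change P * (D' * P) = P * D' at hPDP'
  change D * (D * P) = 0 at hDDP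
  change P * (D' * D') = 0 at hDDP'
  change ε * P = P * ε at hεP
  change ε * D = -(D * ε) at hεD
  change ε * D' = -(D' * ε) at hεD'
  change ‖P - c • (P * (D' * (D * P)) + D * (P * D'))‖ < 1 at hlt
  change τ (ε * P) = 0
  have hmul' : ∀ x ∈ 𝒜, ∀ y ∈ 𝒜, x * y ∈ 𝒜 := hmul
  have htr' : ∀ x ∈ 𝒜, ∀ y ∈ 𝒜, τ (x * y) = τ (y * x) := htr
  set d := D * P with hd
  set d' := P * D' with hd'
  have hdA : d ∈ 𝒜 := hmul' _ hD _ hP
  have hdA' : d' ∈ 𝒜 := hmul' _ hP _ hD'
  have hPd : P * d = d := hPDP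
  have hdP : d * P = d := by rw [hd, mul_assoc, hPP]
  have hPd' : P * d' = d' := by rw [hd', ← mul_assoc, hPP]
  have hdP' : d' * P = d' := by rw [hd', mul_assoc, hPDP']
  have hdd : d * d = 0 := by
    rw [hd, mul_assoc, hPDP, hDDP]
  have hdd' : d' * d' = 0 := by
    have : d' * d' = P * (D' * D') := by
      calc d' * d' = (P * D') * (P * D') := rfl
        _ = (P * (D' * P)) * D' := by noncomm_ring
        _ = (P * D') * D' := by rw [hPDP']
        _ = P * (D' * D') := by noncomm_ring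
    rw [this, hDDP']
  set Δ := P * (D' * (D * P)) + D * (P * D') with hΔ
  have hΔ1 : Δ = d' * d + d * d' := by
    have e1 : P * (D' * (D * P)) = d' * d := by
      rw [hd', mul_assoc]
    have e2 : D * (P * D') = d * d' := by
      calc D * (P * D') = D * (P * P) * D' := by rw [hPP, mul_assoc]
        _ = D * P * (P * D') := by noncomm_ring
    rw [hΔ, e1, e2]
  have hΔd : Δ * d = d * Δ := by
    rw [hΔ1]
    calc (d' * d + d * d') * d = d' * (d * d) + d * d' * d := by noncomm_ring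
      _ = d * d' * d := by rw [hdd, mul_zero, zero_add]
      _ = d * d' * d + (d * d) * d' := by rw [hdd, zero_mul, add_zero]
      _ = _ := by noncomm_ring
  have hΔd' : Δ * d' = d' * Δ := by
    rw [hΔ1]
    calc (d' * d + d * d') * d' = d' * d * d' + d * (d' * d') := by noncomm_ring
      _ = d' * d * d' := by rw [hdd', mul_zero, add_zero]
      _ = (d' * d') * d + d' * d * d' := by rw [hdd', zero_mul, zero_add]
      _ = _ := by noncomm_ring
  have hPΔ : P * Δ = Δ := by
    rw [hΔ1, mul_add]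
    congr 1
    · rw [← mul_assoc, hPd']
    · rw [← mul_assoc, hPd]
  have hΔP : Δ * P = Δ := by
    rw [hΔ1, add_mul]
    congr 1
    · rw [mul_assoc, hdP]
    · rw [mul_assoc, hdP']
  set X := P - c • Δ with hX
  have hXd : X * d = d * X := by
    rw [hX, sub_mul, mul_sub, smul_mul_assoc, mul_smul_comm, hΔd, hPd, hdP]
  have hXd' : X * d' = d' * X := by
    rw [hX, sub_mul, mul_sub, smul_mul_assoc, mul_smul_comm, hΔd', hPd', hdP']
  have hXP : X * P = X := by rw [hX, sub_mul, smul_mul_assoc, hPP, hΔP]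
  have hΔA : Δ ∈ 𝒜 := by
    rw [hΔ1]
    exact hadd _ (hmul' _ hdA' _ hdA) _ (hmul' _ hdA _ hdA')
  have hXA : X ∈ 𝒜 := by
    rw [hX, sub_eq_add_neg, ← neg_smul]
    exact hadd _ hP _ (hsm _ _ hΔA)
  -- the powers
  let Y : ℕ → (V →L[ℂ] V) := fun n => P * X ^ n
  have hYA : ∀ n, Y n ∈ 𝒜 := by
    intro n
    induction n with
    | zero =>
      change P * X ^ 0 ∈ 𝒜
      rw [pow_zero, mul_one]
      exact hP
    | succ n ih =>
      change P * X ^ (n + 1) ∈ 𝒜
      rw [pow_succ, ← mul_assoc]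
      exact hmul' _ ih _ hXA
  have hcomm : ∀ n, X ^ n * d = d * X ^ n ∧ X ^ n * d' = d' * X ^ n := by
    intro n
    constructor
    · exact ((show Commute X d from hXd).pow_left n)
    · exact ((show Commute X d' from hXd').pow_left n)
  have hYd : ∀ n, Y n * d = d * Y n := by
    intro n
    change P * X ^ n * d = d * (P * X ^ n)
    rw [mul_assoc, (hcomm n).1, ← mul_assoc, hPd, ← mul_assoc, hdP]
  have hYd' : ∀ n, Y n * d' = d' * Y n := by
    intro n
    change P * X ^ n * d' = d' * (P * X ^ n)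
    rw [mul_assoc, (hcomm n).2, ← mul_assoc, hPd', ← mul_assoc, hdP']
  have hYP : ∀ n, Y n * P = Y n := by
    intro n
    cases n with
    | zero =>
      change P * X ^ 0 * P = P * X ^ 0
      rw [pow_zero, mul_one, hPP]
    | succ n =>
      change P * X ^ (n + 1) * P = P * X ^ (n + 1)
      rw [pow_succ, mul_assoc, mul_assoc, hXP]
  have hYΔ : ∀ n, Y n - Y (n + 1) = c • (Y n * Δ) := by
    intro n
    have e1 : Y (n + 1) = Y n * X := by
      change P * X ^ (n + 1) = P * X ^ n * X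
      rw [pow_succ, mul_assoc]
    rw [e1, hX, mul_sub, hYP, mul_smul_comm]
    abel
  have hεd' : ε * d' = -(d' * ε) := by
    rw [hd']
    calc ε * (P * D') = (ε * P) * D' := by noncomm_ring
      _ = P * (ε * D') := by rw [hεP]; noncomm_ring
      _ = -(P * D' * ε) := by rw [hεD']; noncomm_ring
  have hzero : ∀ n, τ (ε * (Y n * Δ)) = 0 := by
    intro n
    have h1 : τ ((ε * (Y n * d)) * d') = τ (d' * (ε * (Y n * d))) :=
      htr' _ (hmul' _ hε _ (hmul' _ (hYA n) _ hdA)) _ hdA'
    have h2 : d' * (ε * (Y n * d)) = -(ε * (Y n * (d' * d))) := by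
      calc d' * (ε * (Y n * d)) = (d' * ε) * (Y n * d) := by noncomm_ring
        _ = -(ε * d') * (Y n * d) := by rw [hεd']; noncomm_ring
        _ = -(ε * ((d' * Y n) * d)) := by noncomm_ring
        _ = -(ε * (Y n * (d' * d))) := by rw [← hYd']; noncomm_ring
    have h3 : ε * (Y n * Δ) = ε * (Y n * (d' * d)) + (ε * (Y n * d)) * d' := by
      rw [hΔ1]
      noncomm_ring
    rw [h3, map_add, h1, h2, map_neg, add_neg_cancel]
  have hconst : ∀ n, τ (ε * Y n) = τ (ε * P) := by
    intro n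
    induction n with
    | zero =>
      change τ (ε * (P * X ^ 0)) = _
      rw [pow_zero, mul_one]
    | succ n ih =>
      rw [← ih]
      have h1 : ε * Y n - ε * Y (n + 1) = c • (ε * (Y n * Δ)) := by
        rw [← mul_sub, hYΔ, mul_smul_comm]
      have h2 : τ (ε * Y n) - τ (ε * Y (n + 1)) = 0 := by
        rw [← map_sub, h1, map_smul, hzero, smul_zero]
      exact (sub_eq_zero.1 h2).symm
  have hlim : Tendsto (fun n : ℕ => |K| * (‖ε‖ * (‖P‖ * ‖X‖ ^ n))) atTop (𝓝 0) := by
    have h1 := tendsto_pow_atTop_nhds_zero_of_lt_one (norm_nonneg X) hlt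
    have h2 := ((h1.const_mul ‖P‖).const_mul ‖ε‖).const_mul |K|
    simpa using h2
  have hle : ∀ n : ℕ, ‖τ (ε * P)‖ ≤ |K| * (‖ε‖ * (‖P‖ * ‖X‖ ^ n)) := by
    intro n
    rw [← hconst n]
    refine (hbd _).trans ?_
    refine (mul_le_mul_of_nonneg_right (le_abs_self K) (norm_nonneg _)).trans ?_
    refine mul_le_mul_of_nonneg_left ?_ (abs_nonneg K)
    refine (norm_mul_le _ _).trans (mul_le_mul_of_nonneg_left ?_ (norm_nonneg _))
    rcases Nat.eq_zero_or_pos n with rfl | hn
    · change ‖P * X ^ 0‖ ≤ _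
      rw [pow_zero, pow_zero, mul_one, mul_one]
    · exact (norm_mul_le _ _).trans (mul_le_mul_of_nonneg_left (norm_pow_le' X hn) (norm_nonneg _))
  have h0 : ‖τ (ε * P)‖ ≤ 0 := ge_of_tendsto' hlim hle
  exact norm_le_zero_iff.1 h0

theorem ana : S_ANA := by
  intro I G _ U a b σ ha hb hU ⟨η, hη, h0⟩
  have hf : ∀ t : ℝ, AnalyticAt ℝ (fun t : ℝ => ∑ j, σ j / ∑ u ∈ U j, a u * b u ^ t) t := by
    intro t
    refine Finset.analyticAt_fun_sum _ fun j _ => ?_
    refine AnalyticAt.div analyticAt_const ?_ ?_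
    · refine Finset.analyticAt_fun_sum _ fun u _ => ?_
      refine AnalyticAt.mul analyticAt_const ?_
      have h1 : (fun t : ℝ => b u ^ t) = fun t => Real.exp (Real.log (b u) * t) := by
        funext t
        exact Real.rpow_def_of_pos (hb u) t
      have h2 : AnalyticAt ℝ (fun t : ℝ => Real.exp (Real.log (b u) * t)) t :=
        (analyticAt_const.mul analyticAt_id).rexp
      rw [← h1] at h2
      exact h2
    · have : 0 < ∑ u ∈ U j, a u * b u ^ t :=
        Finset.sum_pos (fun u _ => mul_pos (ha u) (Real.rpow_pos_of_pos (hb u) t)) (hU j)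
      exact this.ne'
  have h1 : (fun t : ℝ => ∑ j, σ j / ∑ u ∈ U j, a u * b u ^ t) =ᶠ[𝓝 0] 0 := by
    filter_upwards [Metric.ball_mem_nhds (0 : ℝ) hη] with t ht
    rw [Metric.mem_ball, Real.dist_0_eq_abs] at ht
    exact h0 t ht
  have h2 := AnalyticOnNhd.eqOn_zero_of_preconnected_of_eventuallyEq_zero
    (f := fun t : ℝ => ∑ j, σ j / ∑ u ∈ U j, a u * b u ^ t) (U := Set.univ)
    (fun t _ => hf t) isPreconnected_univ (Set.mem_univ 0) h1
  exact fun t => h2 (Set.mem_univ t)

end

end Pool.Agent.U838.ZD
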