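import Pool.Agent.U838.ZD.Trace
import Pool.Agent.U838.ZD.Gap
import Pool.Agent.U838.ZD.Super

/-!
# The engine: exactness for the parameter `1` implies that the weighted Euler characteristic
vanishes for all parameters
-/

set_option autoImplicit false

open scoped InnerProductSpace

namespace Pool.Agent.U838.ZD

open Pool.Agent.Q169.ZD
open Pool.Agent.H496R3.ZS (Ell permIso dl dl_apply inner_dl_left)
open Filter Topology

noncomputable section

open scoped Classical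

variable {G : Type} [Group G] {E : Ext G} {I : Type} [Fintype I] (C : Cx E I)

theorem wt_one_weight : Wt E (fun _ : G => (1 : ℝ)) where
  pos _ := one_pos
  one := rfl
  zero_mul _ _ _ := rfl
  mul_zero _ _ _ := rfl
  mul _ _ _ _ := (mul_one _).symm
  smul _ _ _ _ := (mul_one _).symm

/-- the trace as a linear map -/
def TrL : (Ell (I × G) →L[ℂ] Ell (I × G)) →ₗ[ℂ] ℂ where
  toFun := Tr
  map_add' x y := by
    unfold Tr
    rw [← Finset.sum_add_distrib]
    rfl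
  map_smul' c x := by
    unfold Tr
    rw [RingHom.id_apply, smul_eq_mul, Finset.mul_sum]
    rfl

theorem norm_dl_le {X : Type} (p : X) : ‖(dl p : Ell X)‖ ≤ 1 := by
  have h1 : ⟪(dl p : Ell X), dl p⟫_ℂ = 1 := by
    rw [inner_dl, dl_apply, if_pos rfl]
  have h2 : ‖(dl p : Ell X)‖ ^ 2 = 1 := by
    have e1 : (‖(dl p : Ell X)‖ ^ 2 : ℝ) = ‖⟪(dl p : Ell X), dl p⟫_ℂ‖ := by
      rw [inner_self_eq_norm_sq_to_K]
      simp
    rw [e1, h1, norm_one]
  exact (sq_le_one_iff₀ (norm_nonneg _)).1 h2.le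

theorem norm_Tr_le (x : Ell (I × G) →L[ℂ] Ell (I × G)) : ‖Tr x‖ ≤ (Fintype.card I : ℝ) * ‖x‖ := by
  unfold Tr
  refine (norm_sum_le _ _).trans ?_
  have h1 : ∀ j ∈ (Finset.univ : Finset I), ‖x (dl (j, 1)) (j, 1)‖ ≤ ‖x‖ := by
    intro j _
    rw [← inner_dl]
    refine (norm_inner_le_norm _ _).trans ?_
    have h2 := norm_dl_le ((j, 1) : I × G)
    have h3 := x.le_opNorm (dl (j, 1))
    have h4 : ‖x (dl (j, 1))‖ ≤ ‖x‖ := h3.trans (by
      have := mul_le_mul_of_nonneg_left h2 (norm_nonneg x)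
      rwa [mul_one] at this)
    calc ‖(dl (j, 1) : Ell (I × G))‖ * ‖x (dl (j, 1))‖ ≤ 1 * ‖x‖ :=
          mul_le_mul h2 h4 (norm_nonneg _) zero_le_one
      _ = ‖x‖ := one_mul _
  refine (Finset.sum_le_card_nsmul _ _ _ h1).trans (le_of_eq ?_)
  rw [nsmul_eq_mul, Finset.card_univ]

theorem PP {q : G → ℝ} (hq : Wt E q) : C.P q ∘L C.P q = C.P q :=
  ContinuousLinearMap.ext fun F => P_fix C hq _ (P_inM C hq F)

theorem PDP {q : G → ℝ} (hq : Wt E q) : C.P q ∘L C.Dh ∘L C.P q = C.Dh ∘L C.P q :=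
  ContinuousLinearMap.ext fun F => P_fix C hq _ (Dh_inM C hq _ (P_inM C hq F))

theorem PDsP {q : G → ℝ} (hq : Wt E q) : C.P q ∘L C.Ds ∘L C.P q = C.P q ∘L C.Ds := by
  have h : ContinuousLinearMap.adjoint (C.P q ∘L C.Dh ∘L C.P q) =
      ContinuousLinearMap.adjoint (C.Dh ∘L C.P q) := congrArg _ (PDP C hq)
  rw [ContinuousLinearMap.adjoint_comp, ContinuousLinearMap.adjoint_comp, P_adj] at h
  exact h

theorem DD0 (q : G → ℝ) : C.Dh ∘L C.Dh ∘L C.P q = 0 := by
  have h := dhdh C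
  calc C.Dh ∘L C.Dh ∘L C.P q = (C.Dh ∘L C.Dh) ∘L C.P q := rfl
    _ = 0 := by rw [h]; exact ContinuousLinearMap.zero_comp _

theorem PDsDs (q : G → ℝ) : C.P q ∘L C.Ds ∘L C.Ds = 0 := by
  have h : ContinuousLinearMap.adjoint (C.Dh ∘L C.Dh) = 0 := by
    rw [dhdh, map_zero]
  rw [ContinuousLinearMap.adjoint_comp] at h
  change C.Ds ∘L C.Ds = 0 at h
  rw [h]
  exact ContinuousLinearMap.comp_zero _

theorem eps_P (q : G → ℝ) (hq : Wt E q) : C.eps ∘L C.P q = C.P q ∘L C.eps := by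
  have h1 := (proj C q hq).2.2.2.2.2
  unfold Cx.eps
  have h2 := h1 {i | Even (C.deg i)}
  have h3 := h1 {i | ¬ Even (C.deg i)}
  rw [ContinuousLinearMap.sub_comp, ContinuousLinearMap.comp_sub]
  exact congrArg₂ (fun x y => x - y) h2.symm h3.symm

theorem Tr_eps_P {q : G → ℝ} (hq : Wt E q) :
    Tr (C.eps ∘L C.P q) = ((∑ j, (if Even (C.deg j) then (1 : ℝ) else -1) / C.wt q j : ℝ) : ℂ) := by
  unfold Tr
  rw [Complex.ofReal_sum]
  refine Finset.sum_congr rfl fun j _ => ?_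
  change C.eps (C.P q (dl (j, 1))) (j, 1) = _
  rw [eps_apply, (proj C q hq).2.2.2.1 j]
  unfold sgd
  split_ifs
  · rw [one_mul]
  · push_cast
    ring

theorem engine (hex : C.Exact (fun _ => 1)) {p : G → ℝ} (hp : Wt E p) :
    ∑ j, (if Even (C.deg j) then (1 : ℝ) else -1) / C.wt p j = 0 := by
  have hw1 : Wt E (fun _ : G => (1 : ℝ)) := wt_one_weight
  obtain ⟨hW, hcont⟩ := cont C (fun _ => 1) p hw1 hp
  have h0 : (fun g : G => (1 : ℝ) * p g ^ (0 : ℝ)) = fun _ => 1 := by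
    funext g
    rw [Real.rpow_zero, one_mul]
  -- the gap for `t = 0`
  obtain ⟨K, hK, hgap⟩ := gap (Ell (I × G)) (C.P (fun _ => 1)) C.Dh (PP C hw1) (P_adj C _)
    (PDP C hw1) (DD0 C _) (by
      intro x hx hDx
      have h1 : InM C (fun _ => 1) x := by
        have := P_inM C hw1 x
        rwa [hx] at this
      have h2 : dop C.D x = 0 := by
        funext r
        rw [← Dh_apply, hDx]
        rfl
      obtain ⟨y, hy, hy1⟩ := hex x h1 h2
      refine ⟨y, P_fix C hw1 y hy, ell_ext fun r => ?_⟩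
      rw [Dh_apply]
      exact congrFun hy1 r)
  obtain ⟨c, -, hc⟩ := small (Ell (I × G)) (C.P (fun _ => 1)) C.Dh (PP C hw1) (P_adj C _)
    (PDP C hw1) K hK hgap
  -- continuity
  let A : ℝ → (Ell (I × G) →L[ℂ] Ell (I × G)) := fun t => C.P (fun g => 1 * p g ^ t) - (c : ℂ) •
    (C.P (fun g => 1 * p g ^ t) ∘L C.Ds ∘L C.Dh ∘L C.P (fun g => 1 * p g ^ t) +
      C.Dh ∘L C.P (fun g => 1 * p g ^ t) ∘L C.Ds)
  have hA : Continuous A := by
    have h1 : Continuous fun t : ℝ => C.P (fun g => 1 * p g ^ t) ∘L C.Ds ∘L C.Dh ∘L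
        C.P (fun g => 1 * p g ^ t) :=
      hcont.clm_comp (continuous_const.clm_comp (continuous_const.clm_comp hcont))
    have h2 : Continuous fun t : ℝ => C.Dh ∘L C.P (fun g => 1 * p g ^ t) ∘L C.Ds :=
      continuous_const.clm_comp (hcont.clm_comp continuous_const)
    exact hcont.sub ((h1.add h2).const_smul (c : ℂ))
  have hA0 : ‖A 0‖ < 1 := by
    change ‖C.P (fun g => 1 * p g ^ (0 : ℝ)) - (c : ℂ) •
      (C.P (fun g => 1 * p g ^ (0 : ℝ)) ∘L C.Ds ∘L C.Dh ∘L C.P (fun g => 1 * p g ^ (0 : ℝ)) +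
      C.Dh ∘L C.P (fun g => 1 * p g ^ (0 : ℝ)) ∘L C.Ds)‖ < 1
    rw [h0]
    exact hc
  obtain ⟨η, hη, hlt⟩ := Metric.eventually_nhds_iff.1
    ((hA.norm.continuousAt (x := 0)).eventually_lt continuousAt_const hA0)
  -- the trace near `0`
  have hnear : ∀ t : ℝ, |t| < η →
      ∑ j, (if Even (C.deg j) then (1 : ℝ) else -1) / ∑ u ∈ C.U j, 1 * p u ^ t = 0 := by
    intro t ht
    have hq := hW t
    have hlt' : ‖A t‖ < 1 := hlt (by rwa [Real.dist_0_eq_abs])
    have hcP := comm_P C hq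
    have hcD := comm_Dh C (fun g => 1 * p g ^ t)
    have hce : Comm E I (fun g => 1 * p g ^ t) C.eps := by
      have h1 := comm_msk (E := E) (fun g => 1 * p g ^ t) {i | Even (C.deg i)}
      have h2 := comm_msk (E := E) (fun g => 1 * p g ^ t) {i | ¬ Even (C.deg i)}
      constructor
      · intro s hs
        unfold Cx.eps
        rw [ContinuousLinearMap.sub_comp, ContinuousLinearMap.comp_sub]
        exact congrArg₂ (fun x y => x - y) (h1.1 s hs) (h2.1 s hs)
      · intro k hk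
        unfold Cx.eps
        rw [ContinuousLinearMap.sub_comp, ContinuousLinearMap.comp_sub]
        exact congrArg₂ (fun x y => x - y) (h1.2 k hk) (h2.2 k hk)
    have h1 := super (Ell (I × G)) {x | Comm E I (fun g => 1 * p g ^ t) x ∧ FS x} TrL
      (Fintype.card I : ℝ)
      (fun x hx y hy => ⟨⟨fun s hs => by
          rw [ContinuousLinearMap.add_comp, ContinuousLinearMap.comp_add, hx.1.1 s hs,
            hy.1.1 s hs], fun k hk => by
          rw [ContinuousLinearMap.add_comp, ContinuousLinearMap.comp_add, hx.1.2 k hk,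
            hy.1.2 k hk]⟩, fs_add hx.2 hy.2⟩)
      (fun x hx y hy => ⟨⟨fun s hs => by
          calc (x ∘L y) ∘L rS E I _ s = x ∘L (y ∘L rS E I _ s) := rfl
            _ = (x ∘L rS E I _ s) ∘L y := by rw [hy.1.1 s hs]; rfl
            _ = rS E I _ s ∘L (x ∘L y) := by rw [hx.1.1 s hs]; rfl, fun k hk => by
          calc (x ∘L y) ∘L rH I k = x ∘L (y ∘L rH I k) := rfl
            _ = (x ∘L rH I k) ∘L y := by rw [hy.1.2 k hk]; rfl
            _ = rH I k ∘L (x ∘L y) := by rw [hx.1.2 k hk]; rfl⟩, fs_comp hx.2 hy.2⟩)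
      (fun a x hx => ⟨⟨fun s hs => by
          rw [ContinuousLinearMap.smul_comp, ContinuousLinearMap.comp_smul, hx.1.1 s hs],
          fun k hk => by
          rw [ContinuousLinearMap.smul_comp, ContinuousLinearMap.comp_smul, hx.1.2 k hk]⟩,
          fs_smul hx.2 a⟩)
      (fun x hx y hy => trace _ hq x y hx.1 hy.1 hx.2 hy.2) (fun x => norm_Tr_le x)
      (C.P _) C.Dh C.Ds C.eps ⟨hcP, P_FS C _⟩ ⟨hcD, fs_Dh C⟩ ⟨comm_adj hcD, fs_Ds C⟩
      ⟨hce, fs_eps C⟩ (PP C hq) (PDP C hq) (PDsP C hq) (DD0 C _) (PDsDs C _)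
      (eps_P C _ hq) (eps_Dh C) (eps_Ds C) c hlt'
    change Tr (C.eps ∘L C.P _) = 0 at h1
    rw [Tr_eps_P C hq] at h1
    exact_mod_cast h1
  have hall := ana I G (fun j => C.U j) (fun _ => 1) p
    (fun j => if Even (C.deg j) then (1 : ℝ) else -1) (fun _ => one_pos) hp.pos
    (fun j => ⟨1, one_mem_U C j⟩) ⟨η, hη, hnear⟩ 1
  have h2 : ∀ j, ∑ u ∈ C.U j, (1 : ℝ) * p u ^ (1 : ℝ) = C.wt p j := by
    intro j
    exact Finset.sum_congr rfl fun u _ => by rw [Real.rpow_one, one_mul]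
  simp only [h2] at hall
  exact hall

end

end Pool.Agent.U838.ZD
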