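import Pool.Agent.U838.ZD.Mir

/-!
# Exactness of the complex `M(1)` from the exactness of the square summable cochains
-/

set_option autoImplicit false

open scoped ENNReal

namespace Pool.Agent.U838.ZD

open Pool.Agent.Q169.ZD
open Pool.Agent.TH38.CX (AcyclicGComplex)
open Pool.Agent.H496R3.ZS (Ell)

noncomputable section

open scoped Classical

section

variable {B : Type} {M : CoxeterMatrix B} {W : Type} [Group W] {cs : CoxeterSystem M W}
  {H : Type} [Group H] [MulAction H B] {φ : H →* MulAut W} (Y : Mirrored H B)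

/-- The properties of `𝒰(W, Y)`. -/
structure IsU (cs : CoxeterSystem M W) (Y : Mirrored H B) (U : AcyclicGComplex (W ⋊[φ] H))
    (κ : ∀ i, Y.E i → W → U.E i) : Prop where
  surj : ∀ i (x : U.E i), ∃ e w, x = κ i e w
  eq : ∀ i e e' w w', κ i e w = κ i e' w' ↔ e = e' ∧ w⁻¹ * w' ∈ par cs (Y.mir i e)
  act : ∀ i (g : W ⋊[φ] H) e w, g • κ i e w = κ i (g.right • e) (g.left * φ g.right w)
  bd : ∀ i e w, U.bd i (Finsupp.single (κ (i + 1) e w) 1) =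
    (Y.bd i e).mapDomain (fun f => κ i f w)

variable {Y} {U : AcyclicGComplex (W ⋊[φ] H)} {κ : ∀ i, Y.E i → W → U.E i}

variable (κ) in
/-- the cell which belongs to `(j, g)` -/
def pt (j : II Y) (g : W ⋊[φ] H) : U.E j.1 := g⁻¹ • κ j.1 (Y.rep j.1 j.2) 1

theorem cz {α : Type} (d : α → ℂ) (f : α) : (((0 : ℤ) : ℂ)) * d f = 0 := by
  rw [Int.cast_zero, zero_mul]

theorem ca {α : Type} (d : α → ℂ) (f : α) (m n : ℤ) : ((m + n : ℤ) : ℂ) * d f =
    ((m : ℤ) : ℂ) * d f + ((n : ℤ) : ℂ) * d f := by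
  rw [Int.cast_add, add_mul]

theorem sumadd {α : Type} (d : α → ℂ) (v w : α →₀ ℤ) :
    ((v + w).sum fun f n => ((n : ℤ) : ℂ) * d f) = (v.sum fun f n => ((n : ℤ) : ℂ) * d f) +
      w.sum fun f n => ((n : ℤ) : ℂ) * d f :=
  Finsupp.sum_add_index' (h := fun f n => ((n : ℤ) : ℂ) * d f) (cz d) (ca d)

theorem sumsingle {α : Type} (d : α → ℂ) (x : α) (n : ℤ) :
    ((Finsupp.single x n).sum fun f n => ((n : ℤ) : ℂ) * d f) = ((n : ℤ) : ℂ) * d x :=
  Finsupp.sum_single_index (h := fun f n => ((n : ℤ) : ℂ) * d f) (cz d x)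

theorem summap {α β : Type} (σ : α → β) (d : β → ℂ) (v : α →₀ ℤ) :
    ((v.mapDomain σ).sum fun f n => ((n : ℤ) : ℂ) * d f) =
      v.sum fun f n => ((n : ℤ) : ℂ) * d (σ f) :=
  Finsupp.sum_mapDomain_index (h := fun f n => ((n : ℤ) : ℂ) * d f) (cz d) (ca d)

/-- `∂ ∂ = 0` for cochains -/
theorem ev_bd (i : ℕ) (c : U.E i → ℂ) (v : U.E (i + 1) →₀ ℤ) :
    ((U.bd i v).sum fun f n => ((n : ℤ) : ℂ) * c f) =
      v.sum fun x n => ((n : ℤ) : ℂ) * ((U.bd i (Finsupp.single x 1)).sum fun f m =>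
        ((m : ℤ) : ℂ) * c f) := by
  induction v using Finsupp.induction_linear with
  | zero => rw [map_zero, Finsupp.sum_zero_index, Finsupp.sum_zero_index]
  | add x y hx hy =>
    rw [map_add, sumadd, hx, hy, sumadd]
  | single x n =>
    rw [sumsingle]
    have h1 : U.bd i (Finsupp.single x n) = n • U.bd i (Finsupp.single x 1) := by
      rw [← map_zsmul, Finsupp.smul_single, smul_eq_mul, mul_one]
    rw [h1, Finsupp.sum_smul_index (cz c), Finsupp.mul_sum]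
    refine Finsupp.sum_congr fun f _ => ?_
    rw [Int.cast_mul, mul_assoc]

theorem ddy (hU : IsU cs Y U κ) : DDY Y := by
  intro i y c
  -- the cochain on `U`
  let ct : U.E i → ℂ := fun x => c (hU.surj i x).choose
  have hct : ∀ f w, ct (κ i f w) = c f := by
    intro f w
    have h1 := (hU.surj i (κ i f w)).choose_spec.choose_spec
    have h2 := ((hU.eq i _ _ _ _).1 h1).1
    change c _ = c f
    rw [← h2]
  have h0 : U.bd i (U.bd (i + 1) (Finsupp.single (κ (i + 2) y 1) 1)) = 0 :=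
    (U.exact_succ i _).2 ⟨_, rfl⟩
  have h1 := ev_bd i ct (U.bd (i + 1) (Finsupp.single (κ (i + 2) y 1) 1))
  rw [h0, Finsupp.sum_zero_index, hU.bd, summap] at h1
  rw [h1]
  refine Finsupp.sum_congr fun f _ => ?_
  rw [hU.bd, summap]
  simp only [hct]

theorem pt_surj (hU : IsU cs Y U κ) (i : ℕ) (hi : i < Y.len + 1) (x : U.E i) :
    ∃ p : Fin (Y.c i) × (W ⋊[φ] H), x = pt κ ⟨⟨i, hi⟩, p.1⟩ p.2 := by
  obtain ⟨e, w, rfl⟩ := hU.surj i x
  obtain ⟨a, η, rfl⟩ := exists_orb Y i e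
  refine ⟨(a, (⟨w, η⟩ : W ⋊[φ] H)⁻¹), ?_⟩
  change _ = ((⟨w, η⟩ : W ⋊[φ] H)⁻¹)⁻¹ • κ i (Y.rep i a) 1
  rw [inv_inv, hU.act]
  change _ = κ i (η • Y.rep i a) (w * φ η 1)
  rw [map_one, mul_one]

theorem pt_inj (hU : IsU cs Y U κ) (i : ℕ) (hi : i < Y.len + 1) {a a' : Fin (Y.c i)}
    {g g' : W ⋊[φ] H} (h : pt κ ⟨⟨i, hi⟩, a⟩ g = pt κ ⟨⟨i, hi⟩, a'⟩ g') :
    a = a' ∧ g' * g⁻¹ ∈ Subgroup.closure (TT cs φ Y ⟨⟨i, hi⟩, a⟩) := by
  have h1 : (g' * g⁻¹) • κ i (Y.rep i a) 1 = κ i (Y.rep i a') 1 := by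
    have h2 : g⁻¹ • κ i (Y.rep i a) 1 = g'⁻¹ • κ i (Y.rep i a') 1 := h
    rw [mul_smul, h2, smul_inv_smul]
  rw [hU.act, hU.eq] at h1
  obtain ⟨h2, h3⟩ := h1
  have h4 : (g' * g⁻¹).right • Y.rep i a = (1 : H) • Y.rep i a' := by
    rw [one_smul]
    exact h2
  obtain ⟨rfl, h5⟩ := orb_unique Y i h4
  refine ⟨rfl, (mem_closure_TT Y _ _).2 ⟨h5, ?_⟩⟩
  rw [h5, one_smul, map_one, mul_one, mul_one] at h3
  have h6 := (par cs _).inv_mem h3
  rw [inv_inv] at h6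
  exact h6

theorem pt_T (hU : IsU cs Y U κ) (j : II Y) {t : W ⋊[φ] H} (ht : t ∈ TT cs φ Y j)
    (g : W ⋊[φ] H) : pt κ j (t * g) = pt κ j g := by
  obtain ⟨b, hb, rfl⟩ := ht
  have h1 : (⟨cs.simple b, 1⟩ : W ⋊[φ] H) • κ j.1 (Y.rep j.1 j.2) 1 =
      κ j.1 (Y.rep j.1 j.2) 1 := by
    rw [hU.act, hU.eq]
    change (1 : H) • Y.rep j.1 j.2 = Y.rep j.1 j.2 ∧
      (cs.simple b * φ 1 1)⁻¹ * 1 ∈ par cs (Y.mir j.1 ((1 : H) • Y.rep j.1 j.2))
    rw [one_smul]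
    refine ⟨rfl, ?_⟩
    rw [map_one, mul_one, mul_one, cs.inv_simple]
    exact Subgroup.subset_closure ⟨b, hb, rfl⟩
  unfold pt
  rw [mul_inv_rev, mul_smul]
  congr 1
  rw [inv_smul_eq_iff]
  exact h1.symm

/-- the coboundary of a cochain at the cell `pt j g` -/
theorem cob_pt (hU : IsU cs Y U κ) (i : ℕ) (hi : i + 1 < Y.len + 1) (hi' : i < Y.len + 1)
    (c : U.E i → ℂ) (F : II Y × (W ⋊[φ] H) → ℂ)
    (hF : ∀ b g, c (pt κ ⟨⟨i, hi'⟩, b⟩ g) = F (⟨⟨i, hi'⟩, b⟩, g)) (a : Fin (Y.c (i + 1)))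
    (g : W ⋊[φ] H) :
    ((U.bd i (Finsupp.single (pt κ ⟨⟨i + 1, hi⟩, a⟩ g : U.E (i + 1)) 1)).sum fun f n =>
      ((n : ℤ) : ℂ) * c f) = dop (DG φ Y) F (⟨⟨i + 1, hi⟩, a⟩, g) := by
  have h1 := dop_succ Y F g i hi a 1
  rw [map_one, inv_one, one_mul, one_smul] at h1
  rw [h1]
  have h2 : ∀ f, cF Y F g i hi' f = c (g⁻¹ • κ i f 1) := by
    intro f
    obtain ⟨b, η, rfl⟩ := exists_orb Y i f
    rw [cF_apply, ← hF]
    congr 1
    change ((SemidirectProduct.inr η : W ⋊[φ] H)⁻¹ * g)⁻¹ • κ i (Y.rep i b) 1 = _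
    rw [mul_inv_rev, inv_inv, mul_smul, hU.act]
    congr 1
    change κ i (η • Y.rep i b) (1 * φ η 1) = _
    rw [map_one, mul_one]
  simp only [h2]
  have h3 : U.bd i (Finsupp.single (pt κ ⟨⟨i + 1, hi⟩, a⟩ g : U.E (i + 1)) 1) =
      ((Y.bd i (Y.rep (i + 1) a)).mapDomain (fun f => κ i f 1)).mapDomain
        (fun x => g⁻¹ • x) := by
    rw [← hU.bd, ← U.bd_smul, Finsupp.mapDomain_single]
    rfl
  rw [h3, summap, summap]

end

section

variable {B : Type} {M : CoxeterMatrix B} {W : Type} [Group W] {cs : CoxeterSystem M W}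
  {H : Type} [Group H] [MulAction H B] {φ : H →* MulAut W} {Y : Mirrored H B}
  {U : AcyclicGComplex (W ⋊[φ] H)} {κ : ∀ i, Y.E i → W → U.E i}
  {E : Ext (W ⋊[φ] H)} {hS : E.S = {s | ∃ b : B, s = ⟨cs.simple b, 1⟩}}
  {hl : ∀ g, E.len g = cs.length g.left} {hfin : ∀ i e, Finite (par cs (Y.mir i e))}
  {hφ : ∀ h b, φ h (cs.simple b) = cs.simple (h • b)}

theorem inM_T {C : Cx E (II Y)} {F : II Y × (W ⋊[φ] H) → ℂ} (hF : InM C (fun _ => 1) F)
    (j : II Y) {t : W ⋊[φ] H} (ht : t ∈ C.T j) (g : W ⋊[φ] H) : F (j, t * g) = F (j, g) := by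
  have h0 : ((Real.sqrt (1 : ℝ) : ℝ) : ℂ) = 1 := by
    rw [Real.sqrt_one]
    exact Complex.ofReal_one
  have htt : t * t = 1 := E.sq t (C.sub j ht)
  rcases E.len_smul t (C.sub j ht) g with h | h
  · have h1 := hF j t ht g (by omega)
    rw [h1]
    change ((Real.sqrt (1 : ℝ) : ℝ) : ℂ) * _ = _
    rw [h0, one_mul]
  · have h2 : t * (t * g) = g := by rw [← mul_assoc, htt, one_mul]
    have h1 := hF j t ht (t * g) (by rw [h2]; omega)
    rw [h2] at h1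
    rw [h1]
    change _ = ((Real.sqrt (1 : ℝ) : ℝ) : ℂ) * _
    rw [h0, one_mul]

theorem inM_closure {C : Cx E (II Y)} {F : II Y × (W ⋊[φ] H) → ℂ}
    (hF : InM C (fun _ => 1) F) (j : II Y) {u : W ⋊[φ] H}
    (hu : u ∈ Subgroup.closure (C.T j)) (g : W ⋊[φ] H) : F (j, u * g) = F (j, g) := by
  induction hu using Subgroup.closure_induction_left with
  | one => rw [one_mul]
  | mul_left x hx y _ ih => rw [mul_assoc, inM_T hF j hx, ih]
  | inv_mul_cancel x hx y _ ih =>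
    have h1 : x⁻¹ = x := by
      rw [inv_eq_iff_mul_eq_one]
      exact E.sq x (C.sub j hx)
    rw [h1, mul_assoc, inM_T hF j hx, ih]

theorem memlp_sum {A : Type} (f : A → ℂ) : Memℓp f 2 ↔ Summable fun a => ‖f a‖ ^ (2 : ℝ) := by
  rw [memℓp_gen_iff (by norm_num : 0 < (2 : ENNReal).toReal)]
  norm_num

theorem pair_inj (hU : IsU cs Y U κ) (C : Cx E (II Y)) (hC : ∀ j, C.T j = TT cs φ Y j)
    (i : ℕ) (hi : i < Y.len + 1) (a : Fin (Y.c i)) {g g' : W ⋊[φ] H}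
    (h1 : C.up ⟨⟨i, hi⟩, a⟩ g = C.up ⟨⟨i, hi⟩, a⟩ g')
    (h2 : pt κ ⟨⟨i, hi⟩, a⟩ g = pt κ ⟨⟨i, hi⟩, a⟩ g') : g = g' := by
  obtain ⟨-, h5⟩ := pt_inj hU i hi h2
  have h6 : g' * g⁻¹ ∈ Subgroup.closure (C.T ⟨⟨i, hi⟩, a⟩) := by
    rw [hC]
    exact h5
  have h7 := up_mul C ⟨⟨i, hi⟩, a⟩ g _ h6
  rw [inv_mul_cancel_right, ← h1] at h7
  have h8 : g' * g⁻¹ = 1 := mul_eq_right.1 h7.symm
  rw [mul_inv_eq_one] at h8
  exact h8.symm

theorem pair_inj' (hU : IsU cs Y U κ) (C : Cx E (II Y)) (hC : ∀ j, C.T j = TT cs φ Y j)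
    (j : II Y) {g g' : W ⋊[φ] H} (h1 : C.up j g = C.up j g') (h2 : pt κ j g = pt κ j g') :
    g = g' := by
  obtain ⟨⟨i, hi⟩, a⟩ := j
  exact pair_inj hU C hC i hi a h1 h2

theorem sum_fin_prod {A T : Type} [Finite T] (c : A → ℂ) (hc : Memℓp c 2) :
    Summable fun p : T × A => ‖c p.2‖ ^ (2 : ℝ) := by
  rw [summable_prod_of_nonneg (fun p => by positivity)]
  exact ⟨fun _ => (memlp_sum _).1 hc, Summable.of_finite⟩

theorem sum_pt (hU : IsU cs Y U κ) (C : Cx E (II Y)) (hC : ∀ j, C.T j = TT cs φ Y j)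
    (j : II Y) (c : U.E j.1 → ℂ) (hc : Memℓp c 2) :
    Summable fun g : W ⋊[φ] H => ‖c (pt κ j g)‖ ^ (2 : ℝ) := by
  have h3 := sum_fin_prod (T := {u // u ∈ C.U j}) c hc
  have h4 : Function.Injective (fun g : W ⋊[φ] H =>
      ((⟨C.up j g, (C.mem_U j _).2 (up_mem C j g)⟩, pt κ j g) : {u // u ∈ C.U j} × U.E j.1)) := by
    intro g g' hgg
    have h5 := congrArg Prod.fst hgg
    have h6 := congrArg Prod.snd hgg
    exact pair_inj' hU C hC j (congrArg Subtype.val h5) h6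
  have h5 := h3.comp_injective h4
  exact h5

theorem memlp_pt (hU : IsU cs Y U κ) (C : Cx E (II Y)) (hC : ∀ j, C.T j = TT cs φ Y j)
    (c : ∀ i, U.E i → ℂ) (hc : ∀ i, Memℓp (c i) 2) :
    Memℓp (fun p : II Y × (W ⋊[φ] H) => c p.1.1 (pt κ p.1 p.2)) 2 := by
  rw [memlp_sum, summable_prod_of_nonneg (fun p => by positivity)]
  exact ⟨fun j => sum_pt hU C hC j (c j.1) (hc j.1), Summable.of_finite⟩

theorem exact_cx (hU : IsU cs Y U κ) (hY : DDY Y) (hL : L2Ex U.E (fun i => U.bd i)) :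
    (CX φ Y E hS hl hfin hφ hY).Exact (fun _ => 1) := by
  intro F hF hdF
  set C := CX φ Y E hS hl hfin hφ hY with hCdef
  -- the cochains on `U`
  let c : ∀ i, U.E i → ℂ := fun i x => if hi : i < Y.len + 1 then
    F (⟨⟨i, hi⟩, (pt_surj hU i hi x).choose.1⟩, (pt_surj hU i hi x).choose.2) else 0
  have hcpt : ∀ i (hi : i < Y.len + 1) (a : Fin (Y.c i)) (g : W ⋊[φ] H),
      c i (pt κ ⟨⟨i, hi⟩, a⟩ g) = F (⟨⟨i, hi⟩, a⟩, g) := by
    intro i hi a g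
    change (if hi : i < Y.len + 1 then F (⟨⟨i, hi⟩, (pt_surj hU i hi _).choose.1⟩,
      (pt_surj hU i hi _).choose.2) else 0) = _
    rw [dif_pos hi]
    have h1 := (pt_surj hU i hi (pt κ ⟨⟨i, hi⟩, a⟩ g)).choose_spec
    generalize (pt_surj hU i hi (pt κ ⟨⟨i, hi⟩, a⟩ g)).choose = p at h1
    obtain ⟨a', g'⟩ := p
    obtain ⟨rfl, h2⟩ := pt_inj hU i hi h1
    have h3 := inM_closure hF ⟨⟨i, hi⟩, a⟩ (u := g' * g⁻¹) h2 g
    rw [inv_mul_cancel_right] at h3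
    exact h3
  have hcm : ∀ i, Memℓp (c i) 2 := by
    intro i
    by_cases hi : i < Y.len + 1
    · rw [memlp_sum]
      have h1 : Summable fun p : II Y × (W ⋊[φ] H) => ‖F p‖ ^ (2 : ℝ) :=
        (memlp_sum (fun p => F p)).1 (lp.memℓp F)
      have h2 : Function.Injective (fun x : U.E i =>
          (((⟨⟨i, hi⟩, (pt_surj hU i hi x).choose.1⟩ : II Y), (pt_surj hU i hi x).choose.2) :
            II Y × (W ⋊[φ] H))) := by
        intro x y hxy
        rw [Prod.mk.injEq] at hxy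
        have h3 := (pt_surj hU i hi x).choose_spec
        have h4 := (pt_surj hU i hi y).choose_spec
        have h5 : (pt_surj hU i hi x).choose.1 = (pt_surj hU i hi y).choose.1 := by
          have h6 := (Sigma.mk.inj_iff.1 hxy.1).2
          exact eq_of_heq h6
        rw [h3, h4, h5, hxy.2]
      have h3 := h1.comp_injective h2
      refine h3.congr fun x => ?_
      change ‖F _‖ ^ (2 : ℝ) = ‖c i x‖ ^ (2 : ℝ)
      change _ = ‖(if hi : i < Y.len + 1 then F (⟨⟨i, hi⟩, (pt_surj hU i hi x).choose.1⟩,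
        (pt_surj hU i hi x).choose.2) else 0)‖ ^ (2 : ℝ)
      rw [dif_pos hi]
    · have : IsEmpty (U.E i) := ⟨fun x => by
        obtain ⟨e, -, -⟩ := hU.surj i x
        exact (Y.isEmpty i (by omega)).elim e⟩
      rw [memlp_sum]
      exact summable_empty
  have hclosed : ∀ i (e : U.E (i + 1)),
      ((U.bd i (Finsupp.single e 1)).sum fun f n => ((n : ℤ) : ℂ) * c i f) = 0 := by
    intro i e
    by_cases hi : i + 1 < Y.len + 1
    · obtain ⟨⟨a, g⟩, rfl⟩ := pt_surj hU (i + 1) hi e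
      have h1 := cob_pt hU i hi (by omega) (c i) F (fun b g => hcpt i _ b g) a g
      refine h1.trans ?_
      exact congrFun hdF _
    · obtain ⟨e', -, -⟩ := hU.surj (i + 1) e
      exact (Y.isEmpty (i + 1) (by omega)).elim e'
  have h0 : c 0 = 0 := hL.1 (c 0) (hcm 0) (hclosed 0)
  have hex : ∀ i, ∃ c' : U.E i → ℂ, Memℓp c' 2 ∧ ∀ e : U.E (i + 1),
      c (i + 1) e = (U.bd i (Finsupp.single e 1)).sum fun f n => ((n : ℤ) : ℂ) * c' f :=
    fun i => hL.2 i (c (i + 1)) (hcm (i + 1)) (hclosed (i + 1))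
  choose c' hc'm hc' using hex
  have hm := memlp_pt hU C (fun j => rfl) c' hc'm
  refine ⟨⟨fun p => c' p.1.1 (pt κ p.1 p.2), hm⟩, ?_, ?_⟩
  · intro j t ht g _
    change c' j.1 (pt κ j (t * g)) = ((Real.sqrt (1 : ℝ) : ℝ) : ℂ) * c' j.1 (pt κ j g)
    rw [pt_T hU j ht, Real.sqrt_one, Complex.ofReal_one, one_mul]
  · funext p
    obtain ⟨⟨⟨i, hi⟩, a⟩, g⟩ := p
    cases i with
    | zero =>
      have h1 : dop (DG φ Y) (fun p : II Y × (W ⋊[φ] H) => c' p.1.1 (pt κ p.1 p.2))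
        (⟨⟨0, hi⟩, a⟩, g) = 0 := dop_zero Y _ rfl g
      refine h1.trans ?_
      have h2 := hcpt 0 hi a g
      rw [h0] at h2
      exact h2
    | succ i =>
      have h1 := cob_pt hU i hi (by omega) (c' i)
        (fun p : II Y × (W ⋊[φ] H) => c' p.1.1 (pt κ p.1 p.2)) (fun b g => rfl) a g
      refine h1.symm.trans ?_
      rw [← hc' i]
      exact hcpt (i + 1) hi a g

end

end

end Pool.Agent.U838.ZD
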