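import Pool.Agent.Q169.ZD.Stm2

/-!
# The job EXT
-/

set_option autoImplicit false

namespace Pool.Agent.U838.ZD

open Pool.Agent.Q169.ZD

noncomputable section

section

variable {B : Type} {M : CoxeterMatrix B} {W : Type} [Group W] {cs : CoxeterSystem M W}
  {H : Type} [Group H] [MulAction H B] {φ : H →* MulAut W}

theorem phi_word (hφ : ∀ h b, φ h (cs.simple b) = cs.simple (h • b)) (h : H) (ω : List B) :
    φ h (cs.wordProd ω) = cs.wordProd (ω.map (fun b => h • b)) := by
  induction ω with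
  | nil => rw [List.map_nil, cs.wordProd_nil, map_one]
  | cons b ω ih => rw [List.map_cons, cs.wordProd_cons, cs.wordProd_cons, map_mul, ih, hφ]

theorem len_phi_le (hφ : ∀ h b, φ h (cs.simple b) = cs.simple (h • b)) (h : H) (w : W) :
    cs.length (φ h w) ≤ cs.length w := by
  obtain ⟨ω, h1, h2⟩ := cs.exists_isReduced w
  rw [h2, phi_word hφ]
  refine (cs.length_wordProd_le _).trans (le_of_eq ?_)
  rw [List.length_map]
  exact h1.eq.symm

theorem len_phi (hφ : ∀ h b, φ h (cs.simple b) = cs.simple (h • b)) (h : H) (w : W) :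
    cs.length (φ h w) = cs.length w := by
  refine le_antisymm (len_phi_le hφ h w) ?_
  have h1 := len_phi_le hφ h⁻¹ (φ h w)
  rwa [← MulAut.mul_apply, ← map_mul, inv_mul_cancel, map_one, MulAut.one_apply] at h1

theorem mem_closure_T {T : Set (W ⋊[φ] H)} (hT : T ⊆ {s | ∃ b : B, s = ⟨cs.simple b, 1⟩})
    (u : W ⋊[φ] H) : u ∈ Subgroup.closure T ↔
      u.right = 1 ∧ u.left ∈ Q27.Cox.P cs {b | (⟨cs.simple b, 1⟩ : W ⋊[φ] H) ∈ T} := by
  have h1 : T = (SemidirectProduct.inl : W →* W ⋊[φ] H) ''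
      (cs.simple '' {b | (⟨cs.simple b, 1⟩ : W ⋊[φ] H) ∈ T}) := by
    ext x
    constructor
    · intro hx
      obtain ⟨b, rfl⟩ := hT hx
      exact ⟨cs.simple b, ⟨b, hx, rfl⟩, rfl⟩
    · rintro ⟨_, ⟨b, hb, rfl⟩, rfl⟩
      exact hb
  conv_lhs => rw [h1]
  rw [← MonoidHom.map_closure]
  constructor
  · rintro ⟨y, hy, rfl⟩
    exact ⟨rfl, hy⟩
  · rintro ⟨h2, h3⟩
    refine ⟨u.left, h3, ?_⟩
    ext
    · rfl
    · exact h2.symm

end

theorem ext_job : S_EXT := by
  intro B M W _ cs H _ _ φ hφ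
  have hl : ∀ g g' : W ⋊[φ] H, (g * g').left = g.left * φ g.right g'.left := fun _ _ => rfl
  have hsl : ∀ (b : B) (g : W ⋊[φ] H), ((⟨cs.simple b, 1⟩ : W ⋊[φ] H) * g).left =
      cs.simple b * g.left := by
    intro b g
    rw [hl]
    change cs.simple b * φ 1 g.left = _
    rw [map_one, MulAut.one_apply]
  have hsr : ∀ (b : B) (g : W ⋊[φ] H), (g * (⟨cs.simple b, 1⟩ : W ⋊[φ] H)).left =
      g.left * cs.simple (g.right • b) := by
    intro b g
    rw [hl, hφ]
  refine ⟨{
    S := {s | ∃ b : B, s = ⟨cs.simple b, 1⟩}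
    len := fun g => cs.length g.left
    sq := ?_
    len_one := cs.length_one
    len_inv := ?_
    len_mul := ?_
    len_smul := ?_
    len_muls := ?_
    conj := ?_
    desc := ?_
    lift := ?_
    par_decomp := ?_
    par_len := ?_
    par_desc := ?_ }, rfl, fun _ => rfl⟩
  · rintro _ ⟨b, rfl⟩
    refine SemidirectProduct.ext ?_ ?_
    · rw [hsl]
      exact cs.simple_mul_simple_self b
    · exact one_mul 1
  · intro g
    change cs.length (φ g.right⁻¹ g.left⁻¹) = _
    rw [len_phi hφ, cs.length_inv]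
  · intro g h
    change cs.length (g.left * φ g.right h.left) ≤ _
    refine (cs.length_mul_le _ _).trans (le_of_eq ?_)
    rw [len_phi hφ]
  · rintro _ ⟨b, rfl⟩ g
    rw [hsl]
    exact cs.length_simple_mul _ _
  · rintro _ ⟨b, rfl⟩ g
    rw [hsr]
    exact cs.length_mul_simple _ _
  · rintro h hh _ ⟨b, rfl⟩
    have h1 : h.left = 1 := cs.length_eq_zero_iff.1 hh
    refine ⟨h.right • b, SemidirectProduct.ext ?_ ?_⟩
    · rw [hl, hsr, h1, one_mul]
      change cs.simple (h.right • b) * φ (h.right * 1) (φ h.right⁻¹ h.left⁻¹) = _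
      rw [h1, inv_one, map_one, map_one, mul_one]
    · change h.right * 1 * h.right⁻¹ = 1
      rw [mul_one, mul_inv_cancel]
  · intro g hg
    have h1 : g.left ≠ 1 := fun h => hg (cs.length_eq_zero_iff.2 h)
    obtain ⟨b, hb⟩ := cs.exists_rightDescent_of_ne_one h1
    refine ⟨⟨cs.simple (g.right⁻¹ • b), 1⟩, ⟨_, rfl⟩, ?_⟩
    rw [hsr, smul_inv_smul]
    exact hb
  · rintro _ ⟨b, rfl⟩ _ ⟨c, rfl⟩ g h1 h2 h3
    rw [hsl] at h1
    rw [hsr] at h2
    rw [hsr, hsl] at h3
    change cs.length (cs.simple c * g.left * cs.simple ((1 * g.right) • b)) < _ at h3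
    rw [one_mul] at h3
    have hx : g.left ∈ Q27.Cox.R cs {g.right • b} := by
      intro j hj
      rw [Set.mem_singleton_iff.1 hj]
      exact h2
    have key : cs.simple c * g.left = g.left * cs.simple (g.right • b) := by
      rcases Q27.Cox.deodhar_up hx h1 with h4 | ⟨j, hj, h4⟩
      · exfalso
        have := h4 (g.right • b) rfl
        omega
      · rw [Set.mem_singleton_iff.1 hj] at h4
        exact h4
    refine SemidirectProduct.ext ?_ ?_
    · rw [hsl, hsr, key]
    · change 1 * g.right = g.right * 1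
      rw [one_mul, mul_one]
  · intro T hT g
    obtain ⟨y, hy, x, hx, h1, -⟩ := Q27.Cox.exists_decomp_L (cs := cs)
      {b | (⟨cs.simple b, 1⟩ : W ⋊[φ] H) ∈ T} g.left
    refine ⟨⟨y, 1⟩, (mem_closure_T hT _).2 ⟨rfl, hy⟩, ⟨x, g.right⟩, ?_, ?_⟩
    · intro t ht
      obtain ⟨b, rfl⟩ := hT ht
      rw [hsl]
      exact hx b ht
    · refine SemidirectProduct.ext ?_ ?_
      · rw [hl]
        change g.left = y * φ 1 x
        rw [map_one, MulAut.one_apply]
        exact h1
      · exact (one_mul _).symm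
  · intro T hT u hu m hm
    obtain ⟨h1, h2⟩ := (mem_closure_T hT u).1 hu
    have h3 : m.left ∈ Q27.Cox.L cs {b | (⟨cs.simple b, 1⟩ : W ⋊[φ] H) ∈ T} := by
      intro b hb
      have := hm _ hb
      rwa [hsl] at this
    rw [hl, h1, map_one, MulAut.one_apply]
    exact Q27.Cox.length_mul_L h3 h2
  · intro T hT u hu hu1
    obtain ⟨h1, h2⟩ := (mem_closure_T hT u).1 hu
    have h3 : u.left ≠ 1 := by
      intro h3
      apply hu1
      exact SemidirectProduct.ext h3 h1
    obtain ⟨b, hb⟩ := cs.exists_leftDescent_of_ne_one h3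
    have h4 : b ∈ {b | (⟨cs.simple b, 1⟩ : W ⋊[φ] H) ∈ T} := Q27.Cox.descent_mem h2 hb
    refine ⟨_, h4, ?_⟩
    rw [hsl]
    exact hb

end

end Pool.Agent.U838.ZD
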