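import Pool.Agent.U838.ZD.Engine
import Pool.Agent.U838.ZD.CellJob

/-!
# The complex `Cx` of a mirrored complex
-/

set_option autoImplicit false

namespace Pool.Agent.U838.ZD

open Pool.Agent.Q169.ZD

noncomputable section

open scoped Classical

section

variable {B : Type} {M : CoxeterMatrix B} {W : Type} [Group W] {cs : CoxeterSystem M W}
  {H : Type} [Group H] [MulAction H B] {φ : H →* MulAut W} (Y : Mirrored H B)

/-- the orbits of cells -/
abbrev II : Type := Σ i : Fin (Y.len + 1), Fin (Y.c i)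

theorem orb_inj (i : ℕ) (b : Fin (Y.c i)) : Function.Injective (fun η : H => η • Y.rep i b) := by
  intro η η' h
  have h1 : (η'⁻¹ * η) • Y.rep i b = Y.rep i b := by
    rw [mul_smul]
    have h2 : η • Y.rep i b = η' • Y.rep i b := h
    rw [h2, inv_smul_smul]
  have h2 := Y.free i _ _ h1
  rw [inv_mul_eq_one] at h2
  exact h2.symm

/-- the cell is determined -/
theorem orb_unique (i : ℕ) {b b' : Fin (Y.c i)} {η η' : H}
    (h : η • Y.rep i b = η' • Y.rep i b') : b = b' ∧ η = η' := by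
  have h1 : b = b' := by
    obtain ⟨a, -, ha⟩ := Y.rep_unique i (η • Y.rep i b)
    have h2 := ha b ⟨η, rfl⟩
    have h3 := ha b' ⟨η', h.symm⟩
    rw [h2, h3]
  subst h1
  exact ⟨rfl, orb_inj Y i b h⟩

theorem exists_orb (i : ℕ) (y : Y.E i) : ∃ (b : Fin (Y.c i)) (η : H), y = η • Y.rep i b := by
  obtain ⟨a, ⟨η, hη⟩, -⟩ := Y.rep_unique i y
  exact ⟨a, η, hη.symm⟩

theorem exists_orb' (i : ℕ) (y : Y.E i) : ∃ p : Fin (Y.c i) × H, y = p.2 • Y.rep i p.1 := by
  obtain ⟨b, η, h⟩ := exists_orb Y i y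
  exact ⟨(b, η), h⟩

/-- the incidence numbers with the translates of a representative -/
def co (i : ℕ) (x : Y.E (i + 1)) (b : Fin (Y.c i)) : H →₀ ℤ :=
  (Y.bd i x).comapDomain (fun η => η • Y.rep i b) (orb_inj Y i b).injOn

theorem co_apply (i : ℕ) (x : Y.E (i + 1)) (b : Fin (Y.c i)) (η : H) :
    co Y i x b η = Y.bd i x (η • Y.rep i b) := rfl

/-- decomposition of a sum over cells into orbits -/
theorem sum_orb (i : ℕ) (c : Y.E i → ℂ) (v : Y.E i →₀ ℤ) :
    (v.sum fun f n => ((n : ℤ) : ℂ) * c f) =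
      ∑ b : Fin (Y.c i), ((v.comapDomain (fun η : H => η • Y.rep i b) (orb_inj Y i b).injOn).sum
        fun η n => ((n : ℤ) : ℂ) * c (η • Y.rep i b)) := by
  have hz : ∀ {α : Type} (d : α → ℂ), ∀ f : α, (((0 : ℤ) : ℂ)) * d f = 0 := by
    intro α d f
    rw [Int.cast_zero, zero_mul]
  have ha : ∀ {α : Type} (d : α → ℂ), ∀ (f : α) (m n : ℤ), ((m + n : ℤ) : ℂ) * d f =
      ((m : ℤ) : ℂ) * d f + ((n : ℤ) : ℂ) * d f := by
    intro α d f m n
    rw [Int.cast_add, add_mul]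
  induction v using Finsupp.induction_linear with
  | zero =>
    rw [Finsupp.sum_zero_index]
    refine (Finset.sum_eq_zero fun b _ => ?_).symm
    have : (0 : Y.E i →₀ ℤ).comapDomain (fun η : H => η • Y.rep i b) (orb_inj Y i b).injOn = 0 :=
      Finsupp.comapDomain_zero _
    rw [this, Finsupp.sum_zero_index]
  | add v w hv hw =>
    rw [Finsupp.sum_add_index' (hz c) (ha c), hv, hw, ← Finset.sum_add_distrib]
    refine Finset.sum_congr rfl fun b _ => ?_
    have h1 : (v + w).comapDomain (fun η : H => η • Y.rep i b) (orb_inj Y i b).injOn =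
        v.comapDomain (fun η : H => η • Y.rep i b) (orb_inj Y i b).injOn +
        w.comapDomain (fun η : H => η • Y.rep i b) (orb_inj Y i b).injOn := by
      ext η
      rfl
    rw [h1, Finsupp.sum_add_index' (fun η => hz (fun η => c (η • Y.rep i b)) η)
      (fun η m n => ha (fun η => c (η • Y.rep i b)) η m n)]
  | single y n =>
    obtain ⟨b₀, η₀, rfl⟩ := exists_orb Y i y
    rw [Finsupp.sum_single_index (hz c _), Finset.sum_eq_single b₀]
    · have h1 : (Finsupp.single (η₀ • Y.rep i b₀) n).comapDomain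
          (fun η : H => η • Y.rep i b₀) (orb_inj Y i b₀).injOn = Finsupp.single η₀ n := by
        ext η
        rw [Finsupp.comapDomain_apply, Finsupp.single_apply, Finsupp.single_apply]
        by_cases h : η₀ = η
        · rw [if_pos (by rw [h]), if_pos h]
        · rw [if_neg (fun h' => h (orb_inj Y i b₀ h')), if_neg h]
      rw [h1, Finsupp.sum_single_index (hz (fun η => c (η • Y.rep i b₀)) _)]
    · intro b _ hb
      have h1 : (Finsupp.single (η₀ • Y.rep i b₀) n).comapDomain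
          (fun η : H => η • Y.rep i b) (orb_inj Y i b).injOn = 0 := by
        ext η
        rw [Finsupp.comapDomain_apply, Finsupp.single_apply, if_neg]
        · rfl
        · intro h
          exact hb (orb_unique Y i h).1.symm
      rw [h1, Finsupp.sum_zero_index]
    · intro h
      exact absurd (Finset.mem_univ b₀) h

/-- the matrix of the coboundary over `H` -/
def DH (j k : II Y) : H →₀ ℤ :=
  if h : (j.1 : ℕ) = k.1 + 1 then co Y k.1 (cast (congrArg Y.E h) (Y.rep j.1 j.2)) k.2 else 0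

theorem DH_succ (i : ℕ) (hi : i + 1 < Y.len + 1) (a : Fin (Y.c (i + 1))) (b : Fin (Y.c i)) :
    DH Y ⟨⟨i + 1, hi⟩, a⟩ ⟨⟨i, by omega⟩, b⟩ = co Y i (Y.rep (i + 1) a) b := by
  unfold DH
  rw [dif_pos rfl]
  rfl

theorem DH_ne {j k : II Y} (h : (j.1 : ℕ) ≠ k.1 + 1) : DH Y j k = 0 := dif_neg h

variable (φ) in
/-- the matrix over `W ⋊ H` -/
def DG (j k : II Y) : (W ⋊[φ] H) →₀ ℤ :=
  (DH Y j k).mapDomain (SemidirectProduct.inr : H →* W ⋊[φ] H)

theorem DG_ne_zero {j k : II Y} {h : W ⋊[φ] H} (hh : DG φ Y j k h ≠ 0) :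
    ∃ η : H, h = SemidirectProduct.inr η ∧ DH Y j k η ≠ 0 := by
  have h1 := Finsupp.mapDomain_support (Finsupp.mem_support_iff.2 hh)
  obtain ⟨η, hη, rfl⟩ := Finset.mem_image.1 h1
  exact ⟨η, rfl, Finsupp.mem_support_iff.1 hη⟩

theorem dop_eq (F : II Y × (W ⋊[φ] H) → ℂ) (j : II Y) (g : W ⋊[φ] H) :
    dop (DG φ Y) F (j, g) = ∑ k : II Y, (DH Y j k).sum fun η n =>
      ((n : ℤ) : ℂ) * F (k, (SemidirectProduct.inr η : W ⋊[φ] H)⁻¹ * g) := by
  unfold dop
  refine Finset.sum_congr rfl fun k _ => ?_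
  change ((DG φ Y j k).sum fun h n => ((n : ℤ) : ℂ) * F (k, h⁻¹ * g)) = _
  unfold DG
  rw [Finsupp.sum_mapDomain_index (fun h => by rw [Int.cast_zero, zero_mul])
    (fun h m n => by rw [Int.cast_add, add_mul])]

theorem dop_zero (F : II Y × (W ⋊[φ] H) → ℂ) {j : II Y} (hj : (j.1 : ℕ) = 0) (g : W ⋊[φ] H) :
    dop (DG φ Y) F (j, g) = 0 := by
  rw [dop_eq]
  refine Finset.sum_eq_zero fun k _ => ?_
  rw [DH_ne Y (by omega), Finsupp.sum_zero_index]

/-- the values of `F` along an orbit, as a cochain on `Y` -/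
def cF (F : II Y × (W ⋊[φ] H) → ℂ) (g : W ⋊[φ] H) (i : ℕ) (hi : i < Y.len + 1) (y : Y.E i) : ℂ :=
  F (⟨⟨i, hi⟩, (exists_orb' Y i y).choose.1⟩,
    (SemidirectProduct.inr (exists_orb' Y i y).choose.2 : W ⋊[φ] H)⁻¹ * g)

theorem cF_apply (F : II Y × (W ⋊[φ] H) → ℂ) (g : W ⋊[φ] H) (i : ℕ) (hi : i < Y.len + 1)
    (b : Fin (Y.c i)) (η : H) :
    cF Y F g i hi (η • Y.rep i b) = F (⟨⟨i, hi⟩, b⟩, (SemidirectProduct.inr η : W ⋊[φ] H)⁻¹ * g) := by
  have h1 := (exists_orb' Y i (η • Y.rep i b)).choose_spec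
  obtain ⟨h2, h3⟩ := orb_unique Y i h1
  have h4 : (exists_orb' Y i (η • Y.rep i b)).choose = (b, η) := Prod.ext h2.symm h3.symm
  unfold cF
  rw [h4]

theorem dop_succ (F : II Y × (W ⋊[φ] H) → ℂ) (g : W ⋊[φ] H) (i : ℕ) (hi : i + 1 < Y.len + 1)
    (a : Fin (Y.c (i + 1))) (η : H) :
    dop (DG φ Y) F (⟨⟨i + 1, hi⟩, a⟩, (SemidirectProduct.inr η : W ⋊[φ] H)⁻¹ * g) =
      (Y.bd i (η • Y.rep (i + 1) a)).sum fun f n => ((n : ℤ) : ℂ) * cF Y F g i (by omega) f := by
  rw [dop_eq, Y.bd_smul, Finsupp.sum_mapDomain_index (fun h => by rw [Int.cast_zero, zero_mul])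
    (fun h m n => by rw [Int.cast_add, add_mul]),
    sum_orb Y i (fun f => cF Y F g i (by omega) (η • f)), Fintype.sum_sigma,
    Finset.sum_eq_single (⟨i, by omega⟩ : Fin (Y.len + 1))]
  · refine Finset.sum_congr rfl fun b _ => ?_
    rw [DH_succ]
    refine Finsupp.sum_congr fun η' _ => ?_
    rw [← mul_smul, cF_apply]
    congr 3
    rw [map_mul, mul_inv_rev, mul_assoc]
  · intro i' _ hi'
    refine Finset.sum_eq_zero fun b _ => ?_
    rw [DH_ne Y, Finsupp.sum_zero_index]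
    intro h
    apply hi'
    apply Fin.ext
    change i + 1 = (i' : ℕ) + 1 at h
    change (i' : ℕ) = i
    omega
  · intro h
    exact absurd (Finset.mem_univ _) h

/-- `∂ ∂ = 0` on `Y` -/
def DDY : Prop := ∀ (i : ℕ) (y : Y.E (i + 2)) (c : Y.E i → ℂ),
  ((Y.bd (i + 1) y).sum fun f n => ((n : ℤ) : ℂ) * ((Y.bd i f).sum fun f' m =>
    ((m : ℤ) : ℂ) * c f')) = 0

theorem dop_dop (hY : DDY Y) (F : II Y × (W ⋊[φ] H) → ℂ) :
    dop (DG φ Y) (dop (DG φ Y) F) = 0 := by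
  funext p
  obtain ⟨⟨⟨i, hi⟩, a⟩, g⟩ := p
  change _ = (0 : ℂ)
  cases i with
  | zero => exact dop_zero Y _ rfl g
  | succ i =>
    have h1 := dop_succ Y (dop (DG φ Y) F) g i hi a 1
    rw [map_one, inv_one, one_mul, one_smul] at h1
    rw [h1]
    cases i with
    | zero =>
      refine Finset.sum_eq_zero fun f _ => ?_
      obtain ⟨b, η, rfl⟩ := exists_orb Y 0 f
      change _ * cF Y _ g 0 _ _ = 0
      rw [cF_apply, dop_zero Y _ rfl, mul_zero]
    | succ i =>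
      have h2 : ∀ f : Y.E (i + 1), cF Y (dop (DG φ Y) F) g (i + 1) (by omega) f =
          (Y.bd i f).sum fun f' m => ((m : ℤ) : ℂ) * cF Y F g i (by omega) f' := by
        intro f
        obtain ⟨b, η, rfl⟩ := exists_orb Y (i + 1) f
        rw [cF_apply, dop_succ]
      simp only [h2]
      exact hY i _ _

theorem simple_inj' {b b' : B} (h : cs.simple b = cs.simple b') : b = b' :=
  Q27.Cox.simple_inj cs h

variable (cs φ) in
/-- the reflections fixing a cell -/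
def TT (j : II Y) : Set (W ⋊[φ] H) :=
  {s | ∃ b ∈ Y.mir j.1 (Y.rep j.1 j.2), s = ⟨cs.simple b, 1⟩}

theorem mem_closure_TT (j : II Y) (u : W ⋊[φ] H) : u ∈ Subgroup.closure (TT cs φ Y j) ↔
    u.right = 1 ∧ u.left ∈ par cs (Y.mir j.1 (Y.rep j.1 j.2)) := by
  rw [mem_closure_T (cs := cs) (T := TT cs φ Y j) (by
    rintro _ ⟨b, -, rfl⟩
    exact ⟨b, rfl⟩)]
  have h1 : {b | (⟨cs.simple b, 1⟩ : W ⋊[φ] H) ∈ TT cs φ Y j} = Y.mir j.1 (Y.rep j.1 j.2) := by
    ext b
    constructor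
    · rintro ⟨b', hb', h⟩
      have h2 := congrArg (fun x : W ⋊[φ] H => x.left) h
      rw [simple_inj' h2]
      exact hb'
    · intro hb
      exact ⟨b, hb, rfl⟩
  rw [h1]
  rfl

variable (hφ : ∀ h b, φ h (cs.simple b) = cs.simple (h • b))

variable (φ) in
/-- the complex -/
def CX (E : Ext (W ⋊[φ] H)) (hS : E.S = {s | ∃ b : B, s = ⟨cs.simple b, 1⟩})
    (hl : ∀ g, E.len g = cs.length g.left) (hfin : ∀ i e, Finite (par cs (Y.mir i e)))
    (hφ : ∀ h b, φ h (cs.simple b) = cs.simple (h • b)) (hY : DDY Y) : Cx E (II Y) where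
  T := TT cs φ Y
  sub := by
    rintro j _ ⟨b, -, rfl⟩
    rw [hS]
    exact ⟨b, rfl⟩
  fin := by
    intro j
    have := hfin j.1 (Y.rep j.1 j.2)
    refine Set.Finite.subset (Set.finite_range fun u : par cs (Y.mir j.1 (Y.rep j.1 j.2)) =>
      (⟨u.1, 1⟩ : W ⋊[φ] H)) fun u hu => ?_
    obtain ⟨h1, h2⟩ := (mem_closure_TT Y j u).1 hu
    exact ⟨⟨u.left, h2⟩, SemidirectProduct.ext rfl h1.symm⟩
  deg j := j.1
  D := DG φ Y
  D_len := by
    intro j k h hh
    obtain ⟨η, rfl, -⟩ := DG_ne_zero Y hh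
    rw [hl]
    exact cs.length_one
  D_deg := by
    intro j k h hh
    obtain ⟨η, rfl, hη⟩ := DG_ne_zero Y hh
    by_contra hn
    rw [DH_ne Y hn] at hη
    exact hη rfl
  D_mir := by
    rintro ⟨⟨i, hi⟩, a⟩ ⟨⟨i', hi'⟩, b⟩ h hh _ ⟨c, hc, rfl⟩
    obtain ⟨η, rfl, hη⟩ := DG_ne_zero Y hh
    have h1 : i = i' + 1 := by
      by_contra hn
      rw [DH_ne Y (by exact hn)] at hη
      exact hη rfl
    subst h1
    rw [DH_succ, co_apply] at hη
    have h2 := Y.mir_face i' _ _ hη hc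
    rw [Y.mir_smul] at h2
    obtain ⟨c', hc', rfl⟩ := h2
    refine ⟨c', hc', SemidirectProduct.ext ?_ ?_⟩
    · change ((SemidirectProduct.inr η : W ⋊[φ] H)⁻¹.left *
        φ (SemidirectProduct.inr η : W ⋊[φ] H)⁻¹.right (cs.simple (η • c'))) *
        φ ((SemidirectProduct.inr η : W ⋊[φ] H)⁻¹.right * 1) (1 : W) = cs.simple c'
      rw [map_one, mul_one]
      change (φ η⁻¹ (1 : W)⁻¹ * φ η⁻¹ (cs.simple (η • c'))) = cs.simple c'
      rw [inv_one, map_one, one_mul, hφ, inv_smul_smul]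
    · change η⁻¹ * 1 * η = 1
      rw [mul_one, inv_mul_cancel]
  D_sq := dop_dop Y hY

end

end

end Pool.Agent.U838.ZD
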