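import Pool.Agent.U838.ZD.Up

/-!
# The jobs DPROP, RIGHT and COMM
-/

set_option autoImplicit false

open scoped InnerProductSpace

namespace Pool.Agent.U838.ZD

open Pool.Agent.Q169.ZD
open Pool.Agent.H496R3.ZS (Ell permIso dl dl_apply inner_dl_left)

noncomputable section

open scoped Classical

/-! ### operators preserving finite supports -/

section FS

variable {X : Type}

theorem fs_add {x y : Ell X →L[ℂ] Ell X} (hx : FS x) (hy : FS y) : FS (x + y) := by
  intro F hF
  refine ((hx F hF).union (hy F hF)).subset fun p hp => ?_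
  rw [Function.mem_support] at hp
  by_contra h
  rw [Set.mem_union, Function.mem_support, Function.mem_support, not_or, not_not, not_not] at h
  apply hp
  change x F p + y F p = 0
  rw [h.1, h.2, add_zero]

theorem fs_smul {x : Ell X →L[ℂ] Ell X} (hx : FS x) (c : ℂ) : FS (c • x) := by
  intro F hF
  refine (hx F hF).subset fun p hp => ?_
  rw [Function.mem_support] at hp ⊢
  intro h
  apply hp
  change c * x F p = 0
  rw [h, mul_zero]

theorem fs_zero : FS (0 : Ell X →L[ℂ] Ell X) := by
  intro F _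
  refine Set.finite_empty.subset fun p hp => ?_
  exact absurd rfl hp

theorem fs_sum {ι : Type} (s : Finset ι) {f : ι → (Ell X →L[ℂ] Ell X)} (h : ∀ i ∈ s, FS (f i)) :
    FS (∑ i ∈ s, f i) := by
  induction s using Finset.induction_on with
  | empty =>
    rw [Finset.sum_empty]
    exact fs_zero
  | insert a s ha ih =>
    rw [Finset.sum_insert ha]
    exact fs_add (h a (Finset.mem_insert_self a s))
      (ih fun i hi => h i (Finset.mem_insert_of_mem hi))

theorem fs_comp {x y : Ell X →L[ℂ] Ell X} (hx : FS x) (hy : FS y) : FS (x ∘L y) :=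
  fun F hF => hx _ (hy F hF)

theorem fs_neg {x : Ell X →L[ℂ] Ell X} (hx : FS x) : FS (-x) := by
  have := fs_smul hx (-1)
  rwa [neg_one_smul] at this

theorem fs_msk (A : Set X) : FS (msk A) := by
  intro F hF
  refine hF.subset fun p hp => ?_
  rw [Function.mem_support] at hp ⊢
  intro h
  apply hp
  rw [msk_apply, h, ite_self]

theorem fs_pm (σ : Equiv.Perm X) : FS (pm σ) := fun F hF =>
  (hF.preimage σ.injective.injOn).subset fun _ hp => hp

end FS

section

variable {G : Type} [Group G] {E : Ext G} {I : Type} [Fintype I] (C : Cx E I)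

/-! ### DPROP -/

theorem Dh_apply (F : Ell (I × G)) (p : I × G) : C.Dh F p = dop C.D F p := by
  obtain ⟨j, g⟩ := p
  unfold Cx.Dh dop
  rw [fsum_apply, Finset.sum_eq_single j]
  · rw [fsum_apply]
    refine Finset.sum_congr rfl fun k _ => ?_
    rw [fsum_apply]
    refine Finset.sum_congr rfl fun h _ => ?_
    rw [smul_comp_apply]
    congr 1
    change (msk _ (pm _ F)) (j, g) = _
    rw [msk_apply, if_pos (by exact rfl), pm_apply]
    change F (Equiv.swap j k j, h⁻¹ * g) = _
    rw [Equiv.swap_apply_left]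
  · intro i _ hi
    rw [fsum_apply]
    refine Finset.sum_eq_zero fun k _ => ?_
    rw [fsum_apply]
    refine Finset.sum_eq_zero fun h _ => ?_
    rw [smul_comp_apply]
    change _ * (msk _ (pm _ F)) (j, g) = _
    rw [msk_apply, if_neg, mul_zero]
    exact fun h => hi h.symm
  · intro h
    exact absurd (Finset.mem_univ j) h

theorem len_zero_mul {h : G} (hh : E.len h = 0) (g : G) : E.len (h * g) = E.len g := by
  have h1 := E.len_mul h g
  have h2 := E.len_mul h⁻¹ (h * g)
  rw [inv_mul_cancel_left, E.len_inv] at h2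
  omega

theorem len_mul_zero {h : G} (hh : E.len h = 0) (g : G) : E.len (g * h) = E.len g := by
  have h1 := E.len_mul g h
  have h2 := E.len_mul (g * h) h⁻¹
  rw [mul_inv_cancel_right, E.len_inv] at h2
  omega

theorem Dh_inM {q : G → ℝ} (hq : Wt E q) (F : Ell (I × G)) (hF : InM C q F) :
    InM C q (C.Dh F) := by
  intro j t ht g hlt
  rw [Dh_apply, Dh_apply]
  unfold dop
  rw [Finset.mul_sum]
  refine Finset.sum_congr rfl fun k _ => ?_
  rw [Finset.mul_sum]
  refine Finset.sum_congr rfl fun h hh => ?_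
  rw [Finsupp.mem_support_iff] at hh
  have h0 := C.D_len j k h hh
  have h0' : E.len h⁻¹ = 0 := by rw [E.len_inv, h0]
  have h1 := C.D_mir j k h hh t ht
  have h2 := hF k _ h1 (h⁻¹ * g) (by
    have e1 : h⁻¹ * t * h * (h⁻¹ * g) = h⁻¹ * (t * g) := by group
    rw [e1, len_zero_mul h0', len_zero_mul h0']
    exact hlt)
  have e1 : h⁻¹ * t * h * (h⁻¹ * g) = h⁻¹ * (t * g) := by group
  rw [e1, hq.mul_zero h h0, hq.zero_mul _ h0'] at h2
  change _ * F (k, h⁻¹ * (t * g)) = _ * (_ * F (k, h⁻¹ * g))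
  rw [h2]
  ring

theorem dhdh : C.Dh ∘L C.Dh = 0 := by
  refine ContinuousLinearMap.ext fun F => ell_ext fun p => ?_
  change C.Dh (C.Dh F) p = 0
  rw [Dh_apply]
  have h1 : (fun p => C.Dh F p) = dop C.D F := funext fun p => Dh_apply C F p
  have h2 := congrFun (C.D_sq F) p
  rw [← h1] at h2
  exact h2

theorem fs_Dh : FS C.Dh := by
  unfold Cx.Dh
  exact fs_sum _ fun j _ => fs_sum _ fun k _ => fs_sum _ fun h _ =>
    fs_smul (fs_comp (fs_msk _) (fs_pm _)) _

theorem Ds_eq : C.Ds = ∑ j, ∑ k, ∑ h ∈ (C.D j k).support, ((C.D j k h : ℤ) : ℂ) •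
    (pm (Equiv.prodCongr (Equiv.swap j k) (Equiv.mulLeft h⁻¹))⁻¹ ∘L msk {p : I × G | p.1 = j}) := by
  unfold Cx.Ds Cx.Dh
  rw [map_sum]
  refine Finset.sum_congr rfl fun j _ => ?_
  rw [map_sum]
  refine Finset.sum_congr rfl fun k _ => ?_
  rw [map_sum]
  refine Finset.sum_congr rfl fun h _ => ?_
  rw [map_smulₛₗ, ContinuousLinearMap.adjoint_comp, adjoint_pm, adjoint_msk]
  congr 1
  exact map_intCast _ _

theorem fs_Ds : FS C.Ds := by
  rw [Ds_eq]
  exact fs_sum _ fun j _ => fs_sum _ fun k _ => fs_sum _ fun h _ =>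
    fs_smul (fs_comp (fs_pm _) (fs_msk _)) _

theorem fs_eps : FS C.eps := by
  unfold Cx.eps
  rw [sub_eq_add_neg]
  exact fs_add (fs_msk _) (fs_neg (fs_msk _))

/-- the sign of a degree -/
def sgd (n : ℕ) : ℂ := if Even n then 1 else -1

theorem eps_apply (F : Ell (I × G)) (p : I × G) : C.eps F p = sgd (C.deg p.1) * F p := by
  change (msk _ F) p - (msk _ F) p = _
  rw [msk_apply, msk_apply]
  unfold sgd
  by_cases h : Even (C.deg p.1)
  · rw [if_pos (by exact h), if_neg (by exact fun h' => h' h), if_pos h, sub_zero, one_mul]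
  · rw [if_neg (by exact h), if_pos (by exact h), if_neg h, zero_sub, neg_one_mul]

theorem eps_Dh : C.eps ∘L C.Dh = - (C.Dh ∘L C.eps) := by
  refine ContinuousLinearMap.ext fun F => ell_ext fun p => ?_
  change C.eps (C.Dh F) p = - (C.Dh (C.eps F) p)
  rw [eps_apply, Dh_apply, Dh_apply]
  unfold dop
  rw [Finset.mul_sum, ← Finset.sum_neg_distrib]
  refine Finset.sum_congr rfl fun k _ => ?_
  rw [Finset.mul_sum, ← Finset.sum_neg_distrib]
  refine Finset.sum_congr rfl fun h hh => ?_
  rw [Finsupp.mem_support_iff] at hh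
  rw [eps_apply]
  have h1 := C.D_deg p.1 k h hh
  have h2 : sgd (C.deg p.1) = - sgd (C.deg k) := by
    unfold sgd
    rw [h1]
    by_cases h : Even (C.deg k)
    · rw [if_pos h, if_neg (by rw [Nat.even_add_one]; exact fun h' => h' h)]
    · rw [if_neg h, if_pos (by rw [Nat.even_add_one]; exact h), neg_neg]
  rw [h2]
  ring

theorem adj_eps : ContinuousLinearMap.adjoint C.eps = C.eps := by
  unfold Cx.eps
  rw [map_sub, adjoint_msk, adjoint_msk]

theorem eps_Ds : C.eps ∘L C.Ds = - (C.Ds ∘L C.eps) := by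
  have h : ContinuousLinearMap.adjoint (C.eps ∘L C.Dh) =
    ContinuousLinearMap.adjoint (- (C.Dh ∘L C.eps)) := congrArg _ (eps_Dh C)
  rw [map_neg, ContinuousLinearMap.adjoint_comp, ContinuousLinearMap.adjoint_comp, adj_eps] at h
  change C.Ds ∘L C.eps = - (C.eps ∘L C.Ds) at h
  rw [h, neg_neg]

theorem dprop : S_DPROP G E I C :=
  ⟨Dh_apply C, fun _ hq F hF => Dh_inM C hq F hF, dhdh C, fs_Dh C, fs_Ds C, fs_eps C, eps_Dh C,
    eps_Ds C⟩

/-! ### RIGHT -/

theorem rS_apply (q : G → ℝ) (s : G) (F : Ell (I × G)) (p : I × G) :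
    rS E I q s F p = ((Real.sqrt (q s) : ℝ) : ℂ) * F (p.1, p.2 * s) +
      ((q s - 1 : ℝ) : ℂ) * (if E.len (p.2 * s) < E.len p.2 then F p else 0) := by
  change ((Real.sqrt (q s) : ℝ) : ℂ) * pm (rm I s) F p + ((q s - 1 : ℝ) : ℂ) *
    (msk {p : I × G | E.len (p.2 * s) < E.len p.2} F) p = _
  rw [pm_apply, msk_apply, rm_apply]
  by_cases h : E.len (p.2 * s) < E.len p.2
  · rw [if_pos (show p ∈ {p : I × G | E.len (p.2 * s) < E.len p.2} from h), if_pos h]
  · rw [if_neg (show ¬ p ∈ {p : I × G | E.len (p.2 * s) < E.len p.2} from h), if_neg h]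

theorem rH_apply (h : G) (F : Ell (I × G)) (p : I × G) :
    rH I h F p = F (p.1, p.2 * h) := rfl

theorem adj_rS (q : G → ℝ) {s : G} (hs : s ∈ E.S) :
    ContinuousLinearMap.adjoint (rS E I q s) = rS E I q s := by
  unfold rS
  rw [map_add, map_smulₛₗ, map_smulₛₗ, adjoint_pm, adjoint_msk]
  have h1 : (rm I s)⁻¹ = rm I s := by
    rw [inv_eq_iff_mul_eq_one]
    ext p
    · rfl
    · change p.2 * s * s = p.2
      rw [mul_assoc, E.sq s hs, mul_one]
  rw [h1]
  congr 2
  · exact Complex.conj_ofReal _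
  · exact Complex.conj_ofReal _

theorem adj_rH (h : G) : ContinuousLinearMap.adjoint (rH I h) = rH I h⁻¹ := by
  unfold rH
  rw [adjoint_pm]
  exact congrArg pm (Equiv.ext fun p => rfl)

theorem rS_inM {q : G → ℝ} (hq : Wt E q) {s : G} (hs : s ∈ E.S) (F : Ell (I × G))
    (hF : InM C q F) : InM C q (rS E I q s F) := by
  intro j t ht g hlt
  have htS := C.sub j ht
  rw [rS_apply, rS_apply]
  change ((Real.sqrt (q s) : ℝ) : ℂ) * F (j, t * g * s) + ((q s - 1 : ℝ) : ℂ) *
    (if E.len (t * g * s) < E.len (t * g) then F (j, t * g) else 0) =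
    ((Real.sqrt (q t) : ℝ) : ℂ) * (((Real.sqrt (q s) : ℝ) : ℂ) * F (j, g * s) +
      ((q s - 1 : ℝ) : ℂ) * (if E.len (g * s) < E.len g then F (j, g) else 0))
  have hg := hF j t ht g hlt
  have a1 := E.len_smul t htS g
  have a2 := E.len_smul t htS (g * s)
  have a3 := E.len_muls s hs g
  have a4 := E.len_muls s hs (t * g)
  rw [← mul_assoc] at a2
  rcases a3 with b3 | b3
  · rcases a4 with b4 | b4
    · -- (i)
      have h1 := hF j t ht (g * s) (by rw [← mul_assoc]; omega)
      rw [← mul_assoc] at h1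
      rw [if_neg (by omega), if_neg (by omega), h1]
      ring
    · -- (ii)
      have h1 : t * g = g * s := E.lift s hs t htS g hlt (by omega) (by omega)
      have h2 : q t = q s := by
        have e1 := hq.smul t htS g hlt
        have e2 := hq.mul s hs g (by omega)
        rw [h1, e2] at e1
        have := hq.pos g
        have e3 : q g * (q t - q s) = 0 := by linarith
        rcases mul_eq_zero.1 e3 with h | h
        · exact absurd h this.ne'
        · linarith
      have h3 : t * g * s = g := by rw [h1, mul_assoc, E.sq s hs, mul_one]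
      rw [if_pos (by omega), if_neg (by omega), ← h1, h3, hg, h2, mul_zero, add_zero]
      have h5 : ((q s : ℝ) : ℂ) = ((Real.sqrt (q s) : ℝ) : ℂ) * ((Real.sqrt (q s) : ℝ) : ℂ) := by
        rw [← Complex.ofReal_mul, Real.mul_self_sqrt (hq.pos s).le]
      rw [Complex.ofReal_sub, h5, Complex.ofReal_one]
      ring
  · rcases a4 with b4 | b4
    · exfalso
      omega
    · have h1 := hF j t ht (g * s) (by rw [← mul_assoc]; omega)
      rw [← mul_assoc] at h1
      rw [if_pos (by omega), if_pos (by omega), h1, hg]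
      ring

theorem rH_inM {q : G → ℝ} {h : G} (hh : E.len h = 0) (F : Ell (I × G))
    (hF : InM C q F) : InM C q (rH I h F) := by
  intro j t ht g hlt
  rw [rH_apply, rH_apply]
  have h1 := hF j t ht (g * h) (by
    rw [← mul_assoc, len_mul_zero hh, len_mul_zero hh]
    exact hlt)
  change F (j, t * g * h) = _ * F (j, g * h)
  rw [mul_assoc]
  exact h1

theorem right : S_RIGHT G E I C := fun q hq =>
  ⟨fun _ hs => adj_rS q hs, fun h => adj_rH h, fun _ hs F hF => rS_inM C hq hs F hF,
    fun _ hh F hF => rH_inM C hh F hF⟩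

/-! ### COMM -/

theorem comm_adj {q : G → ℝ} {x : Ell (I × G) →L[ℂ] Ell (I × G)} (h : Comm E I q x) :
    Comm E I q (ContinuousLinearMap.adjoint x) := by
  constructor
  · intro s hs
    have h1 := congrArg (fun T => ContinuousLinearMap.adjoint T) (h.1 s hs)
    simp only [ContinuousLinearMap.adjoint_comp] at h1
    rw [adj_rS q hs] at h1
    exact h1.symm
  · intro k hk
    have h1 := congrArg (fun T => ContinuousLinearMap.adjoint T) (h.2 k⁻¹ (by rw [E.len_inv, hk]))
    simp only [ContinuousLinearMap.adjoint_comp] at h1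
    rw [adj_rH, inv_inv] at h1
    exact h1.symm

theorem comm_Dh (q : G → ℝ) : Comm E I q C.Dh := by
  constructor
  · intro s hs
    refine ContinuousLinearMap.ext fun F => ell_ext fun p => ?_
    change C.Dh (rS E I q s F) p = rS E I q s (C.Dh F) p
    rw [Dh_apply, rS_apply, Dh_apply, Dh_apply]
    unfold dop
    by_cases hl : E.len (p.2 * s) < E.len p.2
    · rw [if_pos hl, Finset.mul_sum, Finset.mul_sum, ← Finset.sum_add_distrib]
      refine Finset.sum_congr rfl fun k _ => ?_
      rw [Finset.mul_sum, Finset.mul_sum, ← Finset.sum_add_distrib]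
      refine Finset.sum_congr rfl fun h hh => ?_
      rw [Finsupp.mem_support_iff] at hh
      have h0 : E.len h⁻¹ = 0 := by rw [E.len_inv, C.D_len _ _ _ hh]
      rw [rS_apply]
      change _ * (_ * F (k, h⁻¹ * p.2 * s) + _ * (if E.len (h⁻¹ * p.2 * s) < E.len (h⁻¹ * p.2) then
        F (k, h⁻¹ * p.2) else 0)) = _ * (_ * F (k, h⁻¹ * (p.2 * s))) + _ * (_ * F (k, h⁻¹ * p.2))
      rw [mul_assoc h⁻¹ p.2 s, len_zero_mul h0, len_zero_mul h0, if_pos hl]
      ring
    · rw [if_neg hl, mul_zero, add_zero, Finset.mul_sum]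
      refine Finset.sum_congr rfl fun k _ => ?_
      rw [Finset.mul_sum]
      refine Finset.sum_congr rfl fun h hh => ?_
      rw [Finsupp.mem_support_iff] at hh
      have h0 : E.len h⁻¹ = 0 := by rw [E.len_inv, C.D_len _ _ _ hh]
      rw [rS_apply]
      change _ * (_ * F (k, h⁻¹ * p.2 * s) + _ * (if E.len (h⁻¹ * p.2 * s) < E.len (h⁻¹ * p.2) then
        F (k, h⁻¹ * p.2) else 0)) = _ * (_ * F (k, h⁻¹ * (p.2 * s)))
      rw [mul_assoc h⁻¹ p.2 s, len_zero_mul h0, len_zero_mul h0, if_neg hl]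
      ring
  · intro k _
    refine ContinuousLinearMap.ext fun F => ell_ext fun p => ?_
    change C.Dh (rH I k F) p = rH I k (C.Dh F) p
    rw [Dh_apply, rH_apply, Dh_apply]
    unfold dop
    refine Finset.sum_congr rfl fun i _ => Finset.sum_congr rfl fun h _ => ?_
    rw [rH_apply]
    change _ * F (i, h⁻¹ * p.2 * k) = _ * F (i, h⁻¹ * (p.2 * k))
    rw [mul_assoc]

theorem comm_msk (q : G → ℝ) (A : Set I) : Comm E I q (msk {p : I × G | p.1 ∈ A}) := by
  have key : ∀ x y : G, ∀ i : I, ((i, x) ∈ {p : I × G | p.1 ∈ A} ↔ (i, y) ∈ {p : I × G | p.1 ∈ A}) :=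
    fun _ _ _ => Iff.rfl
  constructor
  · intro s _
    refine ContinuousLinearMap.ext fun F => ell_ext fun p => ?_
    obtain ⟨i, x⟩ := p
    change msk _ (rS E I q s F) (i, x) = rS E I q s (msk _ F) (i, x)
    rw [msk_apply, rS_apply, rS_apply, msk_apply, msk_apply]
    by_cases h : (i, x) ∈ {p : I × G | p.1 ∈ A}
    · rw [if_pos h, if_pos ((key _ _ _).1 h), if_pos h]
    · rw [if_neg h, if_neg (fun h' => h ((key _ _ _).1 h')), if_neg h, ite_self, mul_zero,
        mul_zero, add_zero]
  · intro k _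
    refine ContinuousLinearMap.ext fun F => ell_ext fun p => ?_
    obtain ⟨i, x⟩ := p
    change msk _ (rH I k F) (i, x) = rH I k (msk _ F) (i, x)
    rw [msk_apply, rH_apply, rH_apply, msk_apply]
    by_cases h : (i, x) ∈ {p : I × G | p.1 ∈ A}
    · rw [if_pos h, if_pos ((key _ _ _).1 h)]
    · rw [if_neg h, if_neg (fun h' => h ((key _ _ _).1 h'))]

/-- an idempotent self-adjoint operator with invariant range under `R` and `R*` commutes with
`R` -/
theorem comm_of_inv {P R R' : Ell (I × G) →L[ℂ] Ell (I × G)}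
    (hPa : ContinuousLinearMap.adjoint P = P) (hR : ContinuousLinearMap.adjoint R = R')
    (h1 : P ∘L R ∘L P = R ∘L P) (h2 : P ∘L R' ∘L P = R' ∘L P) : P ∘L R = R ∘L P := by
  have h3 := congrArg (fun T => ContinuousLinearMap.adjoint T) h2
  simp only [ContinuousLinearMap.adjoint_comp] at h3
  have h4 : ContinuousLinearMap.adjoint R' = R := by
    rw [← hR, ContinuousLinearMap.adjoint_adjoint]
  rw [hPa, h4] at h3
  -- `P R P = P R`
  calc P ∘L R = (P ∘L R) ∘L P := h3.symm
    _ = P ∘L R ∘L P := rfl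
    _ = R ∘L P := h1

theorem comm_P {q : G → ℝ} (hq : Wt E q) : Comm E I q (C.P q) := by
  have key : ∀ R : Ell (I × G) →L[ℂ] Ell (I × G), (∀ F : Ell (I × G), InM C q F → InM C q (R F)) →
      C.P q ∘L R ∘L C.P q = R ∘L C.P q := by
    intro R hR
    refine ContinuousLinearMap.ext fun F => ?_
    exact P_fix C hq _ (hR _ (P_inM C hq F))
  constructor
  · intro s hs
    have h1 := key _ (fun F hF => rS_inM C hq hs F hF)
    exact comm_of_inv (P_adj C q) (adj_rS q hs) h1 h1
  · intro k hk
    exact comm_of_inv (P_adj C q) (adj_rH k) (key _ (fun F hF => rH_inM C hk F hF))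
      (key _ (fun F hF => rH_inM C (by rw [E.len_inv, hk]) F hF))

theorem comm : S_COMM G E I C := fun q hq =>
  ⟨comm_P C hq, comm_Dh C q, comm_adj (comm_Dh C q), comm_msk q⟩

end

end

end Pool.Agent.U838.ZD
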