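import Pool.Agent.U838.ZD.Right

/-!
# The job TRACE
-/

set_option autoImplicit false

open scoped InnerProductSpace

namespace Pool.Agent.U838.ZD

open Pool.Agent.Q169.ZD
open Pool.Agent.H496R3.ZS (Ell permIso dl dl_apply inner_dl_left)

noncomputable section

open scoped Classical

section

variable {G : Type} [Group G] {E : Ext G} {I : Type} [Fintype I]

theorem rS_dl (q : G → ℝ) {s : G} (hs : s ∈ E.S) (j : I) {y : G} (hy : E.len y < E.len (y * s)) :
    rS E I q s (dl (j, y)) = ((Real.sqrt (q s) : ℝ) : ℂ) • (dl (j, y * s) : Ell (I × G)) := by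
  refine ell_ext fun p => ?_
  obtain ⟨i, z⟩ := p
  rw [rS_apply]
  change ((Real.sqrt (q s) : ℝ) : ℂ) * (dl (j, y) : Ell (I × G)) (i, z * s) +
    ((q s - 1 : ℝ) : ℂ) * (if E.len (z * s) < E.len z then (dl (j, y) : Ell (I × G)) (i, z) else 0) =
    ((Real.sqrt (q s) : ℝ) : ℂ) * (dl (j, y * s) : Ell (I × G)) (i, z)
  have h1 : (i, z * s) = (j, y) ↔ (i, z) = (j, y * s) := by
    refine ⟨fun h => ?_, fun h => ?_⟩
    · have h2 := Prod.mk.inj h
      rw [Prod.mk.injEq]
      refine ⟨h2.1, ?_⟩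
      rw [← h2.2, mul_assoc, E.sq s hs, mul_one]
    · have h2 := Prod.mk.inj h
      rw [Prod.mk.injEq]
      refine ⟨h2.1, ?_⟩
      rw [h2.2, mul_assoc, E.sq s hs, mul_one]
  have e1 : (dl (j, y) : Ell (I × G)) (i, z * s) = (dl (j, y * s) : Ell (I × G)) (i, z) := by
    rw [dl_apply, dl_apply]
    by_cases h : (i, z * s) = (j, y)
    · rw [if_pos h, if_pos (h1.1 h)]
    · rw [if_neg h, if_neg (fun h' => h (h1.2 h'))]
  rw [e1]
  by_cases h4 : E.len (z * s) < E.len z
  · have h5 : (i, z) ≠ (j, y) := by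
      intro h5
      have h6 := Prod.mk.inj h5
      rw [h6.2] at h4
      omega
    have e2 : (dl (j, y) : Ell (I × G)) (i, z) = 0 := by
      rw [dl_apply, if_neg h5]
    rw [if_pos h4, e2, mul_zero, add_zero]
  · rw [if_neg h4, mul_zero, add_zero]

theorem pm_comp {X : Type} (σ τ : Equiv.Perm X) : pm σ ∘L pm τ = pm (τ * σ) := rfl

/-- the operators of the right regular representation -/
theorem exists_rho {q : G → ℝ} (hq : Wt E q) : ∀ (n : ℕ) (g : G), E.len g = n →
    ∃ ρ : Ell (I × G) →L[ℂ] Ell (I × G),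
      (∀ x, Comm E I q x → x ∘L ρ = ρ ∘L x) ∧
      (∀ j x, E.len (x * g) = E.len x + E.len g → ρ (dl (j, x)) = dl (j, x * g)) ∧
      (∀ j x, E.len (x * g⁻¹) = E.len x + E.len g →
        ContinuousLinearMap.adjoint ρ (dl (j, x)) = dl (j, x * g⁻¹)) := by
  intro n
  induction n with
  | zero =>
    intro g hg
    refine ⟨rH I g⁻¹, fun x hx => hx.2 _ (by rw [E.len_inv, hg]), fun j x _ => ?_, fun j x _ => ?_⟩
    · unfold rH
      rw [pm_dl]
      congr 1
      change (j, x * (g⁻¹)⁻¹) = _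
      rw [inv_inv]
    · rw [adj_rH, inv_inv]
      unfold rH
      rw [pm_dl]
      rfl
  | succ n ih =>
    intro g hg
    obtain ⟨s, hs, hlt⟩ := E.desc g (by omega)
    have h1 : E.len (g * s) = n := by
      rcases E.len_muls s hs g with h | h <;> omega
    obtain ⟨ρ, hρ1, hρ2, hρ3⟩ := ih (g * s) h1
    have hss := E.sq s hs
    have hq0 : ((Real.sqrt (q s) : ℝ) : ℂ) ≠ 0 := by
      exact_mod_cast (Real.sqrt_pos.2 (hq.pos s)).ne'
    refine ⟨((Real.sqrt (q s) : ℝ) : ℂ)⁻¹ • (rS E I q s ∘L ρ), fun x hx => ?_, fun j x hxg => ?_,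
      fun j x hxg => ?_⟩
    · have e1 := hx.1 s hs
      have e2 := hρ1 x hx
      rw [ContinuousLinearMap.comp_smul, ContinuousLinearMap.smul_comp]
      congr 1
      calc x ∘L (rS E I q s ∘L ρ) = (x ∘L rS E I q s) ∘L ρ := rfl
        _ = rS E I q s ∘L (x ∘L ρ) := by rw [e1]; rfl
        _ = (rS E I q s ∘L ρ) ∘L x := by rw [e2]; rfl
    · have a1 := E.len_mul x (g * s)
      have a2 := E.len_mul (x * (g * s)) s
      have e0 : x * (g * s) * s = x * g := by
        rw [← mul_assoc, mul_assoc, hss, mul_one]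
      have a3 : E.len s ≤ 1 := by
        rcases E.len_muls s hs 1 with h | h
        · rw [one_mul, E.len_one] at h
          omega
        · rw [E.len_one] at h
          omega
      rw [e0] at a2
      have h2 : E.len (x * (g * s)) = E.len x + E.len (g * s) := by omega
      change ((Real.sqrt (q s) : ℝ) : ℂ)⁻¹ • rS E I q s (ρ (dl (j, x))) = _
      rw [hρ2 j x h2, rS_dl q hs j (by rw [e0]; omega), smul_smul, inv_mul_cancel₀ hq0, one_smul,
        e0]
    · have e0 : (g * s)⁻¹ = s * g⁻¹ := by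
        rw [mul_inv_rev]
        congr 1
        rw [inv_eq_iff_mul_eq_one, hss]
      have e1 : x * s * (g * s)⁻¹ = x * g⁻¹ := by
        rw [e0, ← mul_assoc, mul_assoc x, hss, mul_one]
      have a1 := E.len_mul (x * s) (g * s)⁻¹
      rw [e1, E.len_inv] at a1
      have a2 := E.len_muls s hs x
      have h2 : E.len (x * s * (g * s)⁻¹) = E.len (x * s) + E.len (g * s) := by
        rw [e1]
        omega
      have h3 := hρ3 j (x * s) h2
      rw [map_smulₛₗ, ContinuousLinearMap.adjoint_comp, adj_rS q hs]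
      change (starRingEnd ℂ) (((Real.sqrt (q s) : ℝ) : ℂ)⁻¹) •
        (ContinuousLinearMap.adjoint ρ) (rS E I q s (dl (j, x))) = _
      rw [rS_dl q hs j (by omega), map_smul, h3, e1, map_inv₀, Complex.conj_ofReal, smul_smul,
        inv_mul_cancel₀ hq0, one_smul]

end

section

variable {G : Type} [Group G] {E : Ext G} {I : Type} [Fintype I]

theorem ell_fsum {X ι : Type} (s : Finset ι) (f : ι → Ell X) (p : X) :
    (∑ i ∈ s, f i : Ell X) p = ∑ i ∈ s, f i p := by
  induction s using Finset.induction_on with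
  | empty =>
    rw [Finset.sum_empty, Finset.sum_empty]
    rfl
  | insert a s ha ih =>
    rw [Finset.sum_insert ha, Finset.sum_insert ha, ← ih]
    rfl

theorem fin_expand (F : Ell (I × G)) (S : Finset G) (hS : ∀ p, F p ≠ 0 → p.2 ∈ S) :
    F = ∑ k : I, ∑ g ∈ S, F (k, g) • (dl (k, g) : Ell (I × G)) := by
  refine ell_ext fun p => ?_
  obtain ⟨i, z⟩ := p
  rw [ell_fsum, Finset.sum_eq_single i]
  · rw [ell_fsum]
    have h1 : ∀ g, (F (i, g) • (dl (i, g) : Ell (I × G)) : Ell (I × G)) (i, z) =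
        F (i, g) * (if z = g then 1 else 0) := by
      intro g
      change F (i, g) * (dl (i, g) : Ell (I × G)) (i, z) = _
      rw [dl_apply]
      congr 1
      have : ((i, z) = (i, g)) = (z = g) := propext ⟨fun h => (Prod.mk.inj h).2, fun h => by rw [h]⟩
      simp only [this]
    rw [Finset.sum_congr rfl fun g _ => h1 g]
    by_cases hz : z ∈ S
    · rw [Finset.sum_eq_single z]
      · rw [if_pos rfl, mul_one]
      · intro g _ hg
        rw [if_neg (Ne.symm hg), mul_zero]
      · intro h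
        exact absurd hz h
    · rw [Finset.sum_eq_zero]
      · by_contra h
        exact hz (hS (i, z) h)
      · intro g hg
        rw [if_neg, mul_zero]
        rintro rfl
        exact hz hg
  · intro k _ hk
    rw [ell_fsum]
    refine Finset.sum_eq_zero fun g _ => ?_
    change F (k, g) * (dl (k, g) : Ell (I × G)) (i, z) = _
    rw [dl_apply, if_neg, mul_zero]
    intro h
    exact hk (Prod.mk.inj h).1.symm
  · intro h
    exact absurd (Finset.mem_univ i) h

theorem tr_formula {q : G → ℝ} (hq : Wt E q) {x y : Ell (I × G) →L[ℂ] Ell (I × G)}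
    (hx : Comm E I q x) (S : Finset G)
    (hS : ∀ (j : I) (p : I × G), y (dl (j, 1)) p ≠ 0 → p.2 ∈ S) :
    Tr (x ∘L y) = ∑ j : I, ∑ k : I, ∑ g ∈ S,
      y (dl (j, 1)) (k, g) * x (dl (k, 1)) (j, g⁻¹) := by
  unfold Tr
  refine Finset.sum_congr rfl fun j _ => ?_
  change x (y (dl (j, 1))) (j, 1) = _
  conv_lhs => rw [fin_expand (y (dl (j, 1))) S (hS j)]
  rw [map_sum, ell_fsum]
  refine Finset.sum_congr rfl fun k _ => ?_
  rw [map_sum, ell_fsum]
  refine Finset.sum_congr rfl fun g _ => ?_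
  rw [map_smul]
  change y (dl (j, 1)) (k, g) * x (dl (k, g)) (j, 1) = _
  congr 1
  obtain ⟨ρ, h1, h2, h3⟩ := exists_rho (I := I) hq _ g rfl
  have e1 : ρ (dl (k, 1)) = dl (k, g) := by
    have := h2 k 1 (by rw [one_mul, E.len_one, zero_add])
    rwa [one_mul] at this
  have e2 : ContinuousLinearMap.adjoint ρ (dl (j, 1)) = dl (j, g⁻¹) := by
    have := h3 j 1 (by rw [one_mul, E.len_one, E.len_inv, zero_add])
    rwa [one_mul] at this
  have e3 : x (ρ (dl (k, 1))) = ρ (x (dl (k, 1))) :=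
    congrArg (fun T : Ell (I × G) →L[ℂ] Ell (I × G) => T (dl (k, 1))) (h1 x hx)
  rw [← e1, e3, ← inner_dl (j, 1), ← ContinuousLinearMap.adjoint_inner_left, e2, inner_dl]

theorem trace : S_TRACE G E I := by
  intro q hq x y hx hy fx fy
  -- the finite set
  have hfin : ∀ z : Ell (I × G) →L[ℂ] Ell (I × G), FS z → ∃ S : Finset G,
      ∀ (j : I) (p : I × G), z (dl (j, 1)) p ≠ 0 → p.2 ∈ S := by
    intro z hz
    have h1 : ∀ j : I, (Function.support fun p => z (dl (j, 1)) p).Finite := by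
      intro j
      refine hz _ ((Set.finite_singleton ((j, 1) : I × G)).subset fun p hp => ?_)
      rw [Function.mem_support, dl_apply] at hp
      by_contra h
      exact hp (if_neg h)
    have h2 : (⋃ j : I, Prod.snd '' (Function.support fun p => z (dl (j, 1)) p)).Finite :=
      Set.finite_iUnion fun j => (h1 j).image _
    refine ⟨h2.toFinset, fun j p hp => ?_⟩
    rw [Set.Finite.mem_toFinset, Set.mem_iUnion]
    exact ⟨j, p, hp, rfl⟩
  obtain ⟨S₁, h₁⟩ := hfin x fx
  obtain ⟨S₂, h₂⟩ := hfin y fy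
  set S := (S₁ ∪ S₂) ∪ (S₁ ∪ S₂).image (fun g => g⁻¹) with hS
  have hsub : ∀ g, g ∈ S₁ ∪ S₂ → g ∈ S := fun g hg => Finset.mem_union_left _ hg
  have hinv : ∀ g, g ∈ S → g⁻¹ ∈ S := by
    intro g hg
    rw [hS, Finset.mem_union] at hg ⊢
    rcases hg with hg | hg
    · right
      exact Finset.mem_image_of_mem _ hg
    · left
      obtain ⟨g', hg', rfl⟩ := Finset.mem_image.1 hg
      rwa [inv_inv]
  rw [tr_formula hq hx S fun j p hp => hsub _ (Finset.mem_union_right _ (h₂ j p hp)),
    tr_formula hq hy S fun j p hp => hsub _ (Finset.mem_union_left _ (h₁ j p hp)),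
    Finset.sum_comm]
  refine Finset.sum_congr rfl fun k _ => Finset.sum_congr rfl fun j _ => ?_
  refine Finset.sum_nbij' (fun g => g⁻¹) (fun g => g⁻¹) hinv hinv (fun g _ => inv_inv g)
    (fun g _ => inv_inv g) (fun g _ => ?_)
  rw [inv_inv, mul_comm]

end

end

end Pool.Agent.U838.ZD
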