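import Pool.Agent.Q169.ZD.Stm

/-!
# The jobs UP, PROJ and CONT
-/

set_option autoImplicit false

open scoped InnerProductSpace

namespace Pool.Agent.U838.ZD

open Pool.Agent.Q169.ZD
open Pool.Agent.H496R3.ZS (Ell permIso dl dl_apply inner_dl_left)

noncomputable section

open scoped Classical

section

variable {G : Type} [Group G] {E : Ext G} {I : Type} [Fintype I] (C : Cx E I)

/-- uniqueness of the decomposition -/
theorem dec_unique {T : Set G} (hT : T ⊆ E.S) {u u' m m' : G} (hu : u ∈ Subgroup.closure T)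
    (hu' : u' ∈ Subgroup.closure T) (hm : ∀ t ∈ T, E.len m < E.len (t * m))
    (hm' : ∀ t ∈ T, E.len m' < E.len (t * m')) (h : u * m = u' * m') : u = u' ∧ m = m' := by
  have h1 : m' = (u'⁻¹ * u) * m := by
    rw [mul_assoc, h, inv_mul_cancel_left]
  have h2 : m = (u⁻¹ * u') * m' := by
    rw [mul_assoc, ← h, inv_mul_cancel_left]
  have hx : u'⁻¹ * u ∈ Subgroup.closure T := mul_mem (inv_mem hu') hu
  have hy : u⁻¹ * u' ∈ Subgroup.closure T := mul_mem (inv_mem hu) hu'
  have h3 := E.par_len T hT _ hx m hm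
  have h4 := E.par_len T hT _ hy m' hm'
  rw [← h1] at h3
  rw [← h2] at h4
  have h5 : E.len (u'⁻¹ * u) = 0 := by omega
  have h6 : u'⁻¹ * u = 1 := by
    by_contra hne
    obtain ⟨t, -, ht⟩ := E.par_desc T hT _ hx hne
    omega
  have h7 : u = u' := by
    rw [inv_mul_eq_one] at h6
    exact h6.symm
  refine ⟨h7, ?_⟩
  rw [h7] at h
  exact mul_left_cancel h

theorem up_mem (j : I) (g : G) : C.up j g ∈ Subgroup.closure (C.T j) :=
  (Classical.choose_spec (E.par_decomp (C.T j) (C.sub j) g)).1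

theorem up_min (j : I) (g : G) : ∀ t ∈ C.T j,
    E.len ((C.up j g)⁻¹ * g) < E.len (t * ((C.up j g)⁻¹ * g)) := by
  obtain ⟨m, hm, hg⟩ := (Classical.choose_spec (E.par_decomp (C.T j) (C.sub j) g)).2
  have h1 : (C.up j g)⁻¹ * g = m := by
    rw [inv_mul_eq_iff_eq_mul]
    exact hg
  rw [h1]
  exact hm

theorem up_eq (j : I) {u m : G} (hu : u ∈ Subgroup.closure (C.T j))
    (hm : ∀ t ∈ C.T j, E.len m < E.len (t * m)) : C.up j (u * m) = u :=
  (dec_unique (C.sub j) (up_mem C j _) hu (up_min C j _) hm (by rw [mul_inv_cancel_left])).1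

theorem up_mul (j : I) (g : G) (v : G) (hv : v ∈ Subgroup.closure (C.T j)) :
    C.up j (v * g) = v * C.up j g := by
  have h1 : v * g = (v * C.up j g) * ((C.up j g)⁻¹ * g) := by
    rw [mul_assoc, mul_inv_cancel_left]
  conv_lhs => rw [h1]
  exact up_eq C j (mul_mem hv (up_mem C j g)) (up_min C j g)

theorem one_min (j : I) : ∀ t ∈ C.T j, E.len (1 : G) < E.len (t * 1) := by
  intro t ht
  rcases E.len_smul t (C.sub j ht) 1 with h | h
  · omega
  · rw [E.len_one] at h
    omega

theorem up_one (j : I) : C.up j 1 = 1 := by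
  have h := up_eq C j (one_mem _) (one_min C j)
  rwa [mul_one] at h

theorem len_split (j : I) (u m : G) (hu : u ∈ Subgroup.closure (C.T j))
    (hm : ∀ t ∈ C.T j, E.len m < E.len (t * m)) : E.len (u * m) = E.len u + E.len m :=
  E.par_len _ (C.sub j) u hu m hm

theorem T_mem (j : I) {t : G} (ht : t ∈ C.T j) : t ∈ Subgroup.closure (C.T j) :=
  Subgroup.subset_closure ht

theorem up_desc (j : I) (g : G) (t : G) (ht : t ∈ C.T j) :
    E.len g < E.len (t * g) ↔ E.len (C.up j g) < E.len (t * C.up j g) := by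
  have h1 := len_split C j (C.up j g) _ (up_mem C j g) (up_min C j g)
  have h2 := len_split C j (t * C.up j g) _ (mul_mem (T_mem C j ht) (up_mem C j g)) (up_min C j g)
  rw [mul_inv_cancel_left] at h1
  rw [mul_assoc, mul_inv_cancel_left] at h2
  omega

theorem inM_min {q : G → ℝ} (hq : Wt E q) {F : I × G → ℂ} (hF : InM C q F) (j : I) {m : G}
    (hm : ∀ t ∈ C.T j, E.len m < E.len (t * m)) :
    ∀ (n : ℕ) (u : G), E.len u = n → u ∈ Subgroup.closure (C.T j) →
      F (j, u * m) = ((Real.sqrt (q u) : ℝ) : ℂ) * F (j, m) := by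
  intro n
  induction n using Nat.strong_induction_on with
  | _ n ih =>
    intro u hn hu
    by_cases h1 : u = 1
    · rw [h1, hq.one, Real.sqrt_one, one_mul]
      simp
    · obtain ⟨t, ht, hlt⟩ := E.par_desc _ (C.sub j) u hu h1
      have hu' : t * u ∈ Subgroup.closure (C.T j) := mul_mem (T_mem C j ht) hu
      have htt : t * t = 1 := E.sq t (C.sub j ht)
      have h2 : t * (t * u) = u := by rw [← mul_assoc, htt, one_mul]
      have h3 := ih _ (by omega) (t * u) rfl hu'
      have h4 := len_split C j u m hu hm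
      have h5 := len_split C j (t * u) m hu' hm
      have h6 := hF j t ht (t * u * m) (by
        rw [← mul_assoc, h2]
        omega)
      rw [← mul_assoc, h2] at h6
      rw [h6, h3, ← mul_assoc, ← Complex.ofReal_mul, ← Real.sqrt_mul (hq.pos t).le]
      have h7 := hq.smul t (C.sub j ht) (t * u) (by
        rw [h2]
        exact hlt)
      rw [h2] at h7
      rw [← h7]

theorem up : S_UP G E I C := by
  refine ⟨up_mem C, up_min C, fun j g v hv => up_mul C j g v hv, up_one C,
    fun j g t ht => up_desc C j g t ht, fun q hq F => ⟨fun hF j g => ?_, fun h j t ht g hlt => ?_⟩⟩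
  · have h1 := inM_min C hq hF j (up_min C j g) _ (C.up j g) rfl (up_mem C j g)
    rwa [mul_inv_cancel_left] at h1
  · have h1 := h j (t * g)
    have h2 := h j g
    rw [up_mul C j g t (T_mem C j ht)] at h1
    have h3 : (t * C.up j g)⁻¹ * (t * g) = (C.up j g)⁻¹ * g := by group
    rw [h3] at h1
    have h4 := hq.smul t (C.sub j ht) (C.up j g) ((up_desc C j g t ht).1 hlt)
    rw [h1, h4, Real.sqrt_mul (hq.pos t).le, h2, Complex.ofReal_mul, mul_assoc]

/-! ### PROJ -/

theorem fsum_apply {X : Type} {ι : Type} (s : Finset ι) (f : ι → (Ell X →L[ℂ] Ell X)) (F : Ell X)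
    (p : X) : ((∑ i ∈ s, f i) F) p = ∑ i ∈ s, (f i F) p := by
  induction s using Finset.induction_on with
  | empty =>
    rw [Finset.sum_empty, Finset.sum_empty]
    rfl
  | insert a s ha ih =>
    rw [Finset.sum_insert ha, Finset.sum_insert ha, ← ih]
    rfl

theorem smul_comp_apply {X : Type} (c : ℂ) (x : Ell X →L[ℂ] Ell X) (F : Ell X) (p : X) :
    ((c • x) F) p = c * (x F) p := rfl

theorem P_apply (q : G → ℝ) (F : Ell (I × G)) (j : I) (g : G) :
    C.P q F (j, g) = ∑ v ∈ C.U j,
      ((Real.sqrt (q (C.up j g)) * Real.sqrt (q v) / C.wt q j : ℝ) : ℂ) *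
        F (j, v * (C.up j g)⁻¹ * g) := by
  unfold Cx.P
  rw [fsum_apply, Finset.sum_eq_single j]
  · rw [fsum_apply, Finset.sum_eq_single (C.up j g)]
    · rw [fsum_apply]
      refine Finset.sum_congr rfl fun v _ => ?_
      rw [smul_comp_apply]
      congr 1
      change (msk _ (pm _ F)) (j, g) = _
      rw [msk_apply, if_pos ⟨rfl, rfl⟩, pm_apply, lm_apply]
    · intro u _ hu
      rw [fsum_apply]
      refine Finset.sum_eq_zero fun v _ => ?_
      rw [smul_comp_apply]
      change _ * (msk _ (pm _ F)) (j, g) = _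
      rw [msk_apply, if_neg, mul_zero]
      exact fun h => hu h.2.symm
    · intro h
      exact absurd ((C.mem_U j _).2 (up_mem C j g)) h
  · intro k _ hk
    rw [fsum_apply]
    refine Finset.sum_eq_zero fun u _ => ?_
    rw [fsum_apply]
    refine Finset.sum_eq_zero fun v _ => ?_
    rw [smul_comp_apply]
    change _ * (msk _ (pm _ F)) (j, g) = _
    rw [msk_apply, if_neg, mul_zero]
    exact fun h => hk h.1.symm
  · intro h
    exact absurd (Finset.mem_univ j) h

theorem one_mem_U (j : I) : (1 : G) ∈ C.U j := (C.mem_U j 1).2 (one_mem _)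

theorem wt_pos {q : G → ℝ} (hq : Wt E q) (j : I) : 0 < C.wt q j :=
  Finset.sum_pos (fun u _ => hq.pos u) ⟨1, one_mem_U C j⟩

theorem P_inM {q : G → ℝ} (hq : Wt E q) (F : Ell (I × G)) : InM C q (C.P q F) := by
  refine ((up C).2.2.2.2.2 q hq _).2 fun j g => ?_
  rw [P_apply, P_apply]
  have h1 : C.up j ((C.up j g)⁻¹ * g) = 1 := by
    rw [up_mul C j g _ (inv_mem (up_mem C j g)), inv_mul_cancel]
  rw [h1, hq.one, Real.sqrt_one, Finset.mul_sum]
  refine Finset.sum_congr rfl fun v _ => ?_
  rw [inv_one, mul_one, ← mul_assoc, ← Complex.ofReal_mul, ← mul_assoc]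
  congr 2
  ring

theorem P_fix {q : G → ℝ} (hq : Wt E q) (F : Ell (I × G)) (hF : InM C q F) : C.P q F = F := by
  refine ell_ext fun p => ?_
  obtain ⟨j, g⟩ := p
  rw [P_apply]
  have h0 := ((up C).2.2.2.2.2 q hq _).1 hF
  have h1 : ∀ v ∈ C.U j, F (j, v * (C.up j g)⁻¹ * g) =
      ((Real.sqrt (q v) : ℝ) : ℂ) * F (j, (C.up j g)⁻¹ * g) := by
    intro v hv
    have hv' := (C.mem_U j v).1 hv
    have h2 := h0 j (v * ((C.up j g)⁻¹ * g))
    have h3 : C.up j (v * ((C.up j g)⁻¹ * g)) = v := up_eq C j hv' (up_min C j g)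
    rw [h3, inv_mul_cancel_left] at h2
    rw [mul_assoc]
    exact h2
  rw [Finset.sum_congr rfl fun v hv => by rw [h1 v hv]]
  have hw := wt_pos C hq j
  have h4 : ∀ v ∈ C.U j, ((Real.sqrt (q (C.up j g)) * Real.sqrt (q v) / C.wt q j : ℝ) : ℂ) *
      (((Real.sqrt (q v) : ℝ) : ℂ) * F (j, (C.up j g)⁻¹ * g)) =
      ((q v : ℝ) : ℂ) * (((Real.sqrt (q (C.up j g)) / C.wt q j : ℝ) : ℂ) *
        F (j, (C.up j g)⁻¹ * g)) := by
    intro v _
    rw [← mul_assoc, ← mul_assoc, ← Complex.ofReal_mul, ← Complex.ofReal_mul]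
    congr 2
    have h5 := Real.mul_self_sqrt (hq.pos v).le
    have h6 : Real.sqrt (q (C.up j g)) * Real.sqrt (q v) / C.wt q j * Real.sqrt (q v) =
      Real.sqrt (q (C.up j g)) / C.wt q j * (Real.sqrt (q v) * Real.sqrt (q v)) := by ring
    rw [h6, h5]
    ring
  rw [Finset.sum_congr rfl h4, ← Finset.sum_mul, ← Complex.ofReal_sum]
  change ((C.wt q j : ℝ) : ℂ) * _ = _
  rw [← mul_assoc, ← Complex.ofReal_mul, mul_div_cancel₀ _ hw.ne']
  exact (h0 j g).symm

theorem P_FS (q : G → ℝ) : FS (C.P q) := by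
  intro F hF
  have hsub : (Function.support fun p => C.P q F p) ⊆
      ⋃ j : I, ⋃ u ∈ C.U j, ⋃ v ∈ C.U j, (lm I (v * u⁻¹)) ⁻¹' (Function.support fun p => F p) := by
    rintro ⟨j, g⟩ hp
    rw [Function.mem_support, P_apply] at hp
    obtain ⟨v, hv, hv'⟩ := Finset.exists_ne_zero_of_sum_ne_zero hp
    simp only [Set.mem_iUnion]
    refine ⟨j, C.up j g, (C.mem_U j _).2 (up_mem C j g), v, hv, ?_⟩
    rw [Set.mem_preimage, Function.mem_support, lm_apply]
    exact right_ne_zero_of_mul hv'
  refine Set.Finite.subset (Set.finite_iUnion fun j => ?_) hsub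
  refine Set.Finite.biUnion (Finset.finite_toSet _) fun u _ => ?_
  refine Set.Finite.biUnion (Finset.finite_toSet _) fun v _ => ?_
  exact hF.preimage (lm I (v * u⁻¹)).injective.injOn

theorem P_adj (q : G → ℝ) : ContinuousLinearMap.adjoint (C.P q) = C.P q := by
  refine ContinuousLinearMap.ext fun F => ell_ext fun p => ?_
  obtain ⟨j, g⟩ := p
  rw [adjoint_apply, P_apply]
  -- `P e_(j,g)`
  have h1 : C.P q (dl (j, g)) = ∑ v ∈ C.U j,
      ((Real.sqrt (q (C.up j g)) * Real.sqrt (q v) / C.wt q j : ℝ) : ℂ) •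
        (dl (j, v * (C.up j g)⁻¹ * g) : Ell (I × G)) := by
    refine ell_ext fun p => ?_
    obtain ⟨k, h⟩ := p
    rw [P_apply]
    have hR : ((∑ v ∈ C.U j, ((Real.sqrt (q (C.up j g)) * Real.sqrt (q v) / C.wt q j : ℝ) : ℂ) •
        (dl (j, v * (C.up j g)⁻¹ * g) : Ell (I × G)) : Ell (I × G)) : I × G → ℂ) (k, h) =
        ∑ v ∈ C.U j, ((Real.sqrt (q (C.up j g)) * Real.sqrt (q v) / C.wt q j : ℝ) : ℂ) *
        (dl (j, v * (C.up j g)⁻¹ * g) : Ell (I × G)) (k, h) := by
      have : ∀ s : Finset G, ((∑ v ∈ s,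
          ((Real.sqrt (q (C.up j g)) * Real.sqrt (q v) / C.wt q j : ℝ) : ℂ) •
        (dl (j, v * (C.up j g)⁻¹ * g) : Ell (I × G)) : Ell (I × G)) : I × G → ℂ) (k, h) =
        ∑ v ∈ s, ((Real.sqrt (q (C.up j g)) * Real.sqrt (q v) / C.wt q j : ℝ) : ℂ) *
        (dl (j, v * (C.up j g)⁻¹ * g) : Ell (I × G)) (k, h) := by
        intro s
        induction s using Finset.induction_on with
        | empty =>
          rw [Finset.sum_empty, Finset.sum_empty]
          rfl
        | insert a s ha ih =>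
          rw [Finset.sum_insert ha, Finset.sum_insert ha, ← ih]
          rfl
      exact this _
    rw [hR]
    simp only [dl_apply]
    by_cases hkj : k = j
    · subst hkj
      by_cases hc : ∃ w ∈ Subgroup.closure (C.T k), h = w * g
      · obtain ⟨w, hw, rfl⟩ := hc
        have e1 : C.up k (w * g) = w * C.up k g := up_mul C k g w hw
        rw [e1]
        -- left: the only nonzero term is `v = up g`
        rw [Finset.sum_eq_single (C.up k g)]
        · rw [Finset.sum_eq_single (w * C.up k g)]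
          · have e2 : C.up k g * (w * C.up k g)⁻¹ * (w * g) = g := by group
            have e3 : w * C.up k g * (C.up k g)⁻¹ * g = w * g := by group
            rw [e2, e3, if_pos rfl, if_pos rfl, mul_one, mul_one]
            congr 2
            ring
          · intro v _ hv
            rw [if_neg, mul_zero]
            intro h2
            apply hv
            have h3 := (Prod.mk.inj h2).2
            have h4 : w = v * (C.up k g)⁻¹ := mul_right_cancel h3
            rw [h4, inv_mul_cancel_right]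
          · intro h2
            exact absurd ((C.mem_U k _).2 (mul_mem hw (up_mem C k g))) h2
        · intro v _ hv
          rw [if_neg, mul_zero]
          intro h2
          apply hv
          have h3 := (Prod.mk.inj h2).2
          have h4 : v * (w * C.up k g)⁻¹ * (w * g) = v * (C.up k g)⁻¹ * g := by group
          rw [h4] at h3
          have h5 : v * (C.up k g)⁻¹ = 1 := mul_eq_right.1 h3
          rwa [mul_inv_eq_one] at h5
        · intro h2
          exact absurd ((C.mem_U k _).2 (up_mem C k g)) h2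
      · rw [Finset.sum_eq_zero, Finset.sum_eq_zero]
        · intro v hv
          rw [if_neg, mul_zero]
          intro h2
          exact hc ⟨v * (C.up k g)⁻¹, mul_mem ((C.mem_U k v).1 hv) (inv_mem (up_mem C k g)),
            (Prod.mk.inj h2).2⟩
        · intro v hv
          rw [if_neg, mul_zero]
          intro h2
          have h3 := (Prod.mk.inj h2).2
          refine hc ⟨(v * (C.up k h)⁻¹)⁻¹, inv_mem (mul_mem ((C.mem_U k v).1 hv)
            (inv_mem (up_mem C k h))), ?_⟩
          rw [← h3]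
          group
    · rw [Finset.sum_eq_zero, Finset.sum_eq_zero]
      · intro v _
        rw [if_neg, mul_zero]
        exact fun h2 => hkj (Prod.mk.inj h2).1
      · intro v _
        rw [if_neg, mul_zero]
        exact fun h2 => hkj (Prod.mk.inj h2).1
  rw [h1, sum_inner]
  refine Finset.sum_congr rfl fun v _ => ?_
  rw [inner_smul_left, inner_dl, Complex.conj_ofReal]

theorem proj : S_PROJ G E I C := by
  intro q hq
  refine ⟨P_inM C hq, P_fix C hq, P_adj C q, fun j => ?_, P_FS C q, fun A => ?_⟩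
  · rw [P_apply, up_one, hq.one, Real.sqrt_one, Finset.sum_eq_single 1]
    · rw [hq.one, Real.sqrt_one, dl_apply, if_pos (by simp), mul_one, mul_one]
    · intro v _ hv
      rw [dl_apply, if_neg, mul_zero]
      intro h
      apply hv
      have := (Prod.mk.inj h).2
      simpa using this
    · intro h
      exact absurd (one_mem_U C j) h
  · refine ContinuousLinearMap.ext fun F => ell_ext fun p => ?_
    obtain ⟨j, g⟩ := p
    change C.P q (msk _ F) (j, g) = msk _ (C.P q F) (j, g)
    rw [msk_apply, P_apply, P_apply]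
    have key : ∀ x : G, (j, x) ∈ {p : I × G | p.1 ∈ A} ↔ j ∈ A := fun x => Iff.rfl
    by_cases hj : j ∈ A
    · rw [if_pos ((key g).2 hj)]
      exact Finset.sum_congr rfl fun v _ => by rw [msk_apply, if_pos ((key _).2 hj)]
    · rw [if_neg (fun h => hj ((key g).1 h))]
      exact Finset.sum_eq_zero fun v _ => by
        rw [msk_apply, if_neg (fun h => hj ((key _).1 h)), mul_zero]

theorem cont : S_CONT G E I C := by
  intro q₀ p h₀ hp
  have hpow : ∀ (t : ℝ) (x y : G), p x * p y ≥ 0 → (p x * p y) ^ t = p x ^ t * p y ^ t :=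
    fun t x y _ => Real.mul_rpow (hp.pos x).le (hp.pos y).le
  have hW : ∀ t : ℝ, Wt E (fun g => q₀ g * p g ^ t) := by
    intro t
    refine ⟨fun g => mul_pos (h₀.pos g) (Real.rpow_pos_of_pos (hp.pos g) t), ?_, ?_, ?_, ?_, ?_⟩
    · change q₀ 1 * p 1 ^ t = 1
      rw [h₀.one, hp.one, Real.one_rpow, mul_one]
    · intro h hh g
      change q₀ (h * g) * p (h * g) ^ t = q₀ g * p g ^ t
      rw [h₀.zero_mul h hh, hp.zero_mul h hh]
    · intro h hh g
      change q₀ (g * h) * p (g * h) ^ t = q₀ g * p g ^ t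
      rw [h₀.mul_zero h hh, hp.mul_zero h hh]
    · intro s hs g hg
      change q₀ (g * s) * p (g * s) ^ t = q₀ g * p g ^ t * (q₀ s * p s ^ t)
      rw [h₀.mul s hs g hg, hp.mul s hs g hg, Real.mul_rpow (hp.pos g).le (hp.pos s).le]
      ring
    · intro s hs g hg
      change q₀ (s * g) * p (s * g) ^ t = q₀ s * p s ^ t * (q₀ g * p g ^ t)
      rw [h₀.smul s hs g hg, hp.smul s hs g hg, Real.mul_rpow (hp.pos s).le (hp.pos g).le]
      ring
  refine ⟨hW, ?_⟩
  have hc : ∀ g, Continuous fun t : ℝ => q₀ g * p g ^ t := fun g =>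
    continuous_const.mul (Real.continuous_const_rpow (hp.pos g).ne')
  unfold Cx.P
  refine continuous_finsetSum _ fun j _ => continuous_finsetSum _ fun u _ =>
    continuous_finsetSum _ fun v _ => ?_
  have h1 : Continuous fun t : ℝ => C.wt (fun g => q₀ g * p g ^ t) j :=
    continuous_finsetSum _ fun w _ => hc w
  have h2 : Continuous fun t : ℝ => Real.sqrt (q₀ u * p u ^ t) * Real.sqrt (q₀ v * p v ^ t) /
      C.wt (fun g => q₀ g * p g ^ t) j :=
    Continuous.div (((hc u).sqrt).mul ((hc v).sqrt)) h1 fun t => (wt_pos C (hW t) j).ne'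
  exact (Complex.continuous_ofReal.comp h2).smul
    (continuous_const (y := (msk {p : I × G | p.1 = j ∧ C.up j p.2 = u} ∘L
      pm (lm I (v * u⁻¹)) : Ell (I × G) →L[ℂ] Ell (I × G))))

end

end

end Pool.Agent.U838.ZD
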